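import Pool.Agent.Run7.h568.DG.CIface

/-!
# Project DG (helper568), part 2: piece C_inv
-/

set_option autoImplicit false

open Real Matrix Filter Topology

noncomputable section

namespace Run7.h984.DG

open Run7.h568.DG

variable {D : Type} [Fintype D] [DecidableEq D] {T : Tri D} {P : Portal T}

theorem Pd_zero (t : PTD P) (p : (D → ℝ) × ℝ) (d : D) : t.Pd p d 0 = 1 := by
  simp [PTD.Pd]

theorem Pd_succ (t : PTD P) (p : (D → ℝ) × ℝ) (d : D) (n : ℕ) :
    t.Pd p d (n + 1) = t.Pd p d n * t.str p (d, n) ^ t.m (d, n) := by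
  simp [PTD.Pd, List.range_succ]

theorem neg_Pd (t : PTD P) (p q : (D → ℝ) × ℝ) (d : D) (g : SL)
    (h : ∀ i, i < T.num t.c d →
      t.str q (d, i) = g⁻¹ * t.Pd p d i * t.str p (d, i) * (t.Pd p d i)⁻¹ * g) :
    ∀ n, n ≤ T.num t.c d → t.neg.Pd q d n = g⁻¹ * (t.Pd p d n)⁻¹ * g := by
  intro n
  induction n with
  | zero =>
    intro _
    rw [Pd_zero, Pd_zero]
    group
  | succ n ih =>
    intro hn
    rw [Pd_succ t.neg, ih (by omega), Pd_succ t p]
    have h1 : t.neg.str q (d, n) = t.str q (d, n) := rfl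
    have h2 : t.neg.m (d, n) = - t.m (d, n) := rfl
    have h3 : t.str q (d, n) =
        (g⁻¹ * t.Pd p d n) * t.str p (d, n) * (g⁻¹ * t.Pd p d n)⁻¹ := by
      rw [h n (by omega)]
      group
    rw [h1, h2, h3, conj_zpow]
    group

/-- the first coordinate of `g (-s, 1)` -/
def y0 (g : SL) (s : ℝ) : ℝ := -(g.1 0 0) * s + g.1 0 1

theorem act_tri {G G' M A : SL} {s s' r : ℝ} (h : G * M = A * G') (hA : A.1 0 1 = 0)
    (ha : Act M s s' r) : A.1 0 0 * y0 G' s = r * y0 G s' := by
  have e1 : (G * M).1 0 0 = (A * G').1 0 0 := by rw [h]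
  have e2 : (G * M).1 0 1 = (A * G').1 0 1 := by rw [h]
  simp only [Matrix.SpecialLinearGroup.coe_mul, Matrix.mul_apply, Fin.sum_univ_two, hA,
    zero_mul, add_zero] at e1 e2
  obtain ⟨h1, h2⟩ := ha
  unfold y0
  linear_combination s * e1 - e2 + G.1 0 0 * h1 + G.1 0 1 * h2

/-- ordered product along the darts `d, rho d, ...` -/
def F (T : Tri D) (M : D → SL) : ℕ → D → SL
  | 0, _ => 1
  | j + 1, d => M d * F T M j (T.rho d)

theorem turns_succ (x : D → ℝ) (d : D) (j : ℕ) :
    Portal.turns (T := T) x d (j + 1) =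
      step false (x (T.sg (T.sg d))) * Portal.turns (T := T) x (T.rho d) j := rfl

theorem F_gauge (x : D → ℝ) (M g : D → SL)
    (h : ∀ d, M d = (g d)⁻¹ * step false (x (T.sg (T.sg d))) * g (T.rho d)) (j : ℕ) :
    ∀ d, F T M j d = (g d)⁻¹ * Portal.turns (T := T) x d j * g (T.rho^[j] d) := by
  induction j with
  | zero =>
    intro d
    change (1 : SL) = (g d)⁻¹ * 1 * g d
    group
  | succ j ih =>
    intro d
    rw [turns_succ, Function.iterate_succ_apply]
    change M d * F T M j (T.rho d) = _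
    rw [ih, h]
    group

theorem F_last (x : D → ℝ) (M : D → SL) (K : SL) (u v : D)
    (h1 : ∀ d, T.rho d ≠ u → T.rho d ≠ v → M d = step false (x (T.sg (T.sg d))))
    (h2 : ∀ d, T.rho d = u → M d = step false (x (T.sg (T.sg d))) * K) (j : ℕ) :
    ∀ d, T.rho^[j + 1] d = u → (∀ i < j, T.rho^[i + 1] d ≠ u ∧ T.rho^[i + 1] d ≠ v) →
      F T M (j + 1) d = Portal.turns (T := T) x d (j + 1) * K := by
  induction j with
  | zero =>
    intro d hd _
    rw [turns_succ]
    change M d * 1 = _ * 1 * K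
    rw [h2 d hd]
    group
  | succ j ih =>
    intro d hd hi
    rw [turns_succ]
    change M d * F T M (j + 1) (T.rho d) = _
    have h3 := hi 0 (by omega)
    rw [ih (T.rho d) (by rw [← Function.iterate_succ_apply]; exact hd) (fun i hij => by
      have := hi (i + 1) (by omega)
      rw [Function.iterate_succ_apply] at this
      exact this), h1 d h3.1 h3.2]
    group

theorem step_false (s : ℝ) : step false s = W * W * E s := by
  apply Subtype.ext
  unfold step U Del W E
  ext i j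
  fin_cases i <;> fin_cases j <;>
    simp [Matrix.mul_apply, Fin.sum_univ_two, Matrix.SpecialLinearGroup.coe_mul]

theorem E_inv (s : ℝ) : (E s)⁻¹ = - E s := by
  rw [inv_eq_iff_mul_eq_one]
  apply Subtype.ext
  unfold E
  ext i j
  fin_cases i <;> fin_cases j <;>
    simp [Matrix.mul_apply, Fin.sum_univ_two, Matrix.SpecialLinearGroup.coe_mul, ← exp_add] <;>
    ring_nf <;> simp

theorem step_00 (s : ℝ) : (step false s).1 0 0 = exp (-s / 2) := by
  unfold step U Del
  simp [Matrix.mul_apply, Fin.sum_univ_two, Matrix.SpecialLinearGroup.coe_mul]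

theorem step_01 (s : ℝ) : (step false s).1 0 1 = 0 := by
  unfold step U Del
  simp [Matrix.mul_apply, Fin.sum_univ_two, Matrix.SpecialLinearGroup.coe_mul]

theorem J_00 (p : (D → ℝ) × ℝ) : (P.J p).1 0 0 = exp (p.2 / 2) := rfl

theorem J_01 (p : (D → ℝ) × ℝ) : (P.J p).1 0 1 = 0 := rfl

theorem rho_inj : Function.Injective T.rho := by
  intro a b h
  exact T.sg.injective (T.sg.injective (T.io.injective h))

theorem inv (hG : C_gauge) (hT : C_twT) (hL : C_loop) (hU : C_uniq) (hE : C_eig) (hR : C_R)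
    (hJ : C_J) : C_inv := by
  intro D _ _ T P t p hp
  obtain ⟨g, hg, hg01, hg11⟩ := hG T P t p hp
  obtain ⟨hq, -, hgJ⟩ := hT T P t p hp
  have hJg := hgJ g hg hg01 hg11
  set q := t.tw p with hqdef
  obtain ⟨g', hg', hg01', hg11'⟩ := hG T P t.neg q hq
  obtain ⟨hr, -, hgJ'⟩ := hT T P t.neg q hq
  have hJg' := hgJ' g' hg' hg01' hg11'
  set r := t.neg.tw q with hrdef
  have hloop := hL T P t p hp g (fun d => ⟨(hg d).1, (hg d).2.1⟩) hJg hq.1
  have hPd : ∀ d n, n ≤ T.num t.c d → t.neg.Pd q d n = (g d)⁻¹ * (t.Pd p d n)⁻¹ * g d :=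
    fun d => neg_Pd t p q d (g d) (hloop d)
  have hH : ∀ d, t.neg.H q d = (g d)⁻¹ * (t.H p d)⁻¹ * g d := fun d => hPd d _ le_rfl
  have hB : t.neg.B q = (g P.v)⁻¹ * (t.B p)⁻¹ * g P.v :=
    hPd P.v t.a (by rw [t.hc.2.2]; omega)
  -- the twisted transports at `q`
  have hRs : ∀ d, t.neg.Rs q d = (g d)⁻¹ * W * g (T.sg d) := by
    intro d
    have h1 := (hg d).1
    have h2 : t.Rs p d = t.H p d * W := rfl
    have h3 : t.neg.Rs q d = t.neg.H q d * W := rfl
    rw [h3, hH, mul_assoc _ (g d) W, ← h1, h2]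
    group
  have hnu : P.u ≠ T.io P.u := fun h => T.io_ne _ h.symm
  have hnv : P.v ≠ T.io P.v := fun h => T.io_ne _ h.symm
  have huv' : P.u ≠ T.io P.v := fun h => P.hne (by rw [h, T.io_io])
  have hRi0 : ∀ d, d ≠ T.io P.u → d ≠ T.io P.v →
      t.neg.H q d * E (q.1 d) = (g d)⁻¹ * E (p.1 d) * g (T.io d) := by
    intro d h1 h2
    have h3 := (hg d).2.1
    have h4 : t.Ri p d = t.H p d * E (p.1 d) := by
      unfold PTD.Ri
      rw [if_neg h1, if_neg h2]
    rw [h4] at h3
    rw [hH, mul_assoc _ (g d) (E _), ← h3]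
    group
  have hEE : ∀ s, (E s)⁻¹ = - E s := E_inv
  have hRi : ∀ d, t.neg.Ri q d = (g d)⁻¹ * E (p.1 d) * g (T.io d) := by
    intro d
    by_cases h1 : d = T.io P.u
    · have h4 : t.neg.Ri q d = -(t.neg.H q P.u * E (q.1 P.u))⁻¹ := by
        unfold PTD.Ri
        rw [if_pos h1]
      rw [h4, hRi0 P.u hnu huv', h1, T.io_io, hp.1, _root_.mul_inv_rev, _root_.mul_inv_rev, hEE]
      simp [mul_assoc]
    · by_cases h2 : d = T.io P.v
      · have h4 : t.neg.Ri q d = -(t.neg.H q P.v * E (q.1 P.v))⁻¹ := by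
          unfold PTD.Ri
          rw [if_neg h1, if_pos h2]
        rw [h4, hRi0 P.v P.hne hnv, h2, T.io_io, hp.1, _root_.mul_inv_rev, _root_.mul_inv_rev, hEE]
        simp [mul_assoc]
      · have h4 : t.neg.Ri q d = t.neg.H q d * E (q.1 d) := by
          unfold PTD.Ri
          rw [if_neg h1, if_neg h2]
        rw [h4, hRi0 d h1 h2]
  have hRJ : t.neg.RJ q = (g P.u)⁻¹ * P.J p * g P.v := by
    have h1 : t.neg.RJ q = P.J q * (t.neg.B q)⁻¹ := rfl
    have h2 : P.J q = (g P.u)⁻¹ * (t.RJ p * g P.v) := by rw [hJg]; group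
    have h3 : t.RJ p = P.J p * (t.B p)⁻¹ := rfl
    rw [h1, hB, h2, h3]
    group
  -- the matrices of the turns
  set M : D → SL := fun d => t.neg.Rs q d * t.neg.Rs q (T.sg d) * t.neg.Ri q (T.sg (T.sg d))
    with hM
  have hMg : ∀ d, M d = (g d)⁻¹ * step false (p.1 (T.sg (T.sg d))) * g (T.rho d) := by
    intro d
    have h1 : T.rho d = T.io (T.sg (T.sg d)) := rfl
    rw [hM, h1]
    simp only
    rw [hRs, hRs, hRi, step_false]
    group
  obtain ⟨-, -, hR3, hR4, -⟩ := hR T P t.neg q hq.1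
  obtain ⟨-, hkap, -, -, -, -, -, -, hom, hAM, hAJ, hAR, -, hx0, -⟩ := hE T P t.neg q hq
  obtain ⟨-, -, -, -, -, -, -, -, -, -, -, -, -, hx0p, -⟩ := hE T P t p hp
  obtain ⟨hJ1, hJ2, -⟩ := hJ T P p hp
  -- one full turn around the tail of `u`
  have hMp : g P.u * t.neg.Mp q = Portal.rot (T := T) p.1 P.u * g P.u := by
    have hN : 0 < Function.minimalPeriod T.rho P.u :=
      Function.minimalPeriod_pos_of_mem_periodicPts (rho_inj.mem_periodicPts P.u)
    obtain ⟨N, hN'⟩ : ∃ N, Function.minimalPeriod T.rho P.u = N + 1 :=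
      ⟨_, (Nat.succ_pred_eq_of_pos hN).symm⟩
    have hper : T.rho^[N + 1] P.u = P.u := by
      rw [← hN']
      exact Function.isPeriodicPt_minimalPeriod T.rho P.u
    have h1 := F_last (T := T) q.1 M (P.J q * t.neg.B q * (P.J q)⁻¹) P.u P.v
      (fun d hu hv => hR3 d (fun h => hu (by
        change T.io (T.sg (T.sg d)) = _
        rw [h, T.io_io])) (fun h => hv (by
        change T.io (T.sg (T.sg d)) = _
        rw [h, T.io_io])))
      (fun d hu => hR4 d (by
        have h : T.io (T.sg (T.sg d)) = P.u := hu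
        rw [← h, T.io_io]))
      N P.u hper (fun i hi => ⟨fun h => by
        have h2 : Function.IsPeriodicPt T.rho (i + 1) P.u := h
        have h3 := h2.minimalPeriod_le (by omega)
        omega, P.huv _⟩)
    have h2 := F_gauge (T := T) p.1 M g hMg (N + 1) P.u
    rw [hper, h1] at h2
    have h3 : t.neg.Mp q = Portal.turns (T := T) q.1 P.u (N + 1) *
        (P.J q * t.neg.B q * (P.J q)⁻¹) := by
      unfold PTD.Mp Portal.rot
      rw [hN']
    have h4 : Portal.rot (T := T) p.1 P.u = Portal.turns (T := T) p.1 P.u (N + 1) := by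
      unfold Portal.rot
      rw [hN']
    rw [h3, h2, h4]
    group
  -- the first coordinates vanish
  have hu0 : y0 (g P.u) (t.neg.xi q P.u) = 0 := by
    have h1 := act_tri hMp (hJ1 P.u _).1 hAM
    rw [(hJ2 P.u).1, hp.2.2.1] at h1
    have h2 : 0 < T.cyc p.1 P.v := hp.2.1
    have h3 : 1 < exp (- -T.cyc p.1 P.v / 2) := Real.one_lt_exp_iff.2 (by linarith)
    have h4 : (t.neg.kap q)⁻¹ < 1 := inv_lt_one_of_one_lt₀ hkap
    have h5 : (exp (- -T.cyc p.1 P.v / 2) - (t.neg.kap q)⁻¹) * y0 (g P.u) (t.neg.xi q P.u) = 0 := by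
      linear_combination h1
    rcases mul_eq_zero.1 h5 with h6 | h6
    · linarith
    · exact h6
  have hv0 : y0 (g P.v) (t.neg.xi q P.v) = 0 := by
    have h1 := act_tri (G := g P.u) (G' := g P.v) (A := P.J p) (by rw [hRJ]; group) (J_01 p) hAJ
    rw [hu0, mul_zero, J_00] at h1
    rcases mul_eq_zero.1 h1 with h6 | h6
    · exact absurd h6 (exp_pos _).ne'
    · exact h6
  have hstep : ∀ d, y0 (g d) (t.neg.xi q d) = 0 →
      y0 (g (T.rho d)) (t.neg.xi q (T.rho d)) = 0 := by
    intro d hd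
    obtain ⟨ρ, -, hA⟩ := hAR d
    have h1 := act_tri (G := g d) (G' := g (T.rho d)) (A := step false (p.1 (T.sg (T.sg d))))
      (M := M d) (by rw [hMg]; group) (step_01 _) hA
    rw [hd, mul_zero, step_00] at h1
    rcases mul_eq_zero.1 h1 with h6 | h6
    · exact absurd h6 (exp_pos _).ne'
    · exact h6
  have hiter : ∀ d, y0 (g d) (t.neg.xi q d) = 0 → ∀ j,
      y0 (g (T.rho^[j] d)) (t.neg.xi q (T.rho^[j] d)) = 0 := by
    intro d hd j
    induction j with
    | zero => exact hd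
    | succ j ih =>
      rw [Function.iterate_succ_apply']
      exact hstep _ ih
  have hback : ∀ w d, (∃ j, T.rho^[j] d = w) → ∃ j, T.rho^[j] w = d := by
    rintro w d ⟨j, rfl⟩
    have hN : 0 < Function.minimalPeriod T.rho d :=
      Function.minimalPeriod_pos_of_mem_periodicPts (rho_inj.mem_periodicPts d)
    refine ⟨Function.minimalPeriod T.rho d * (j + 1) - j, ?_⟩
    rw [← Function.iterate_add_apply]
    have h1 : Function.minimalPeriod T.rho d * (j + 1) - j + j =
        Function.minimalPeriod T.rho d * (j + 1) := by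
      apply Nat.sub_add_cancel
      nlinarith
    rw [h1]
    exact (Function.isPeriodicPt_minimalPeriod T.rho d).mul_const (j + 1)
  have hall : ∀ d, y0 (g d) (t.neg.xi q d) = 0 := by
    intro d
    by_cases h1 : ∃ j, T.rho^[j] d = P.u
    · obtain ⟨j, hj⟩ := hback _ _ h1
      rw [← hj]
      exact hiter _ hu0 j
    · by_cases h2 : ∃ j, T.rho^[j] d = P.v
      · obtain ⟨j, hj⟩ := hback _ _ h2
        rw [← hj]
        exact hiter _ hv0 j
      · have h1' : ∀ j, T.rho^[j] d ≠ P.u := fun j hj => h1 ⟨j, hj⟩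
        have h2' : ∀ j, T.rho^[j] d ≠ P.v := fun j hj => h2 ⟨j, hj⟩
        unfold y0
        rw [hx0 d h1' h2', (hg d).2.2.1, hx0p d h1' h2']
        ring
  -- uniqueness
  symm
  refine hU T P p r (fun d => g d * g' d) (fun d => ⟨?_, ?_, ?_⟩) ?_
  · have h1 := (hg' d).1
    rw [hRs] at h1
    calc W * (g (T.sg d) * g' (T.sg d)) = g d * ((g d)⁻¹ * W * g (T.sg d) * g' (T.sg d)) := by
          group
      _ = g d * g' d * W := by rw [h1, mul_assoc]
  · have h1 := (hg' d).2.1
    rw [hRi] at h1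
    calc E (p.1 d) * (g (T.io d) * g' (T.io d)) =
        g d * ((g d)⁻¹ * E (p.1 d) * g (T.io d) * g' (T.io d)) := by group
      _ = g d * g' d * E (r.1 d) := by rw [h1, mul_assoc]
  · have h1 := (hg' d).2.2.1
    have h2 := hall d
    unfold y0 at h2
    simp only [Matrix.SpecialLinearGroup.coe_mul, Matrix.mul_apply, Fin.sum_univ_two]
    rw [h1]
    linear_combination (g' d).1 1 1 * h2
  · have h1 := hJg'
    rw [hRJ] at h1
    calc P.J p * (g P.v * g' P.v) = g P.u * ((g P.u)⁻¹ * P.J p * g P.v * g' P.v) := by group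
      _ = g P.u * g' P.u * P.J r := by rw [h1, mul_assoc]

end Run7.h984.DG
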