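import Pool.Agent.TH915.PW.Disc
import Pool.Agent.H469R2.NK.KL

set_option autoImplicit false

/-! # Parseval and cyclic convolutions on `ℤ / B` -/

namespace Pool.Agent.Run7.h984.DG

open Finset
open Pool.Agent.H469R2.NK (e norm_e e_add conj_e e_zero)
open Pool.Agent.TH915.PW (e_int sum_char)

lemma char_sum (B : ℕ) (hB : 0 < B) (m : ℤ) :
    ∑ h ∈ range B, e (m * ((h : ℝ) / B)) = if (B : ℤ) ∣ m then (B : ℂ) else 0 := by
  have hBc : (B : ℝ) ≠ 0 := by positivity
  split_ifs with hm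
  · obtain ⟨t, rfl⟩ := hm
    have : ∀ h ∈ range B, e (((B : ℤ) * t : ℤ) * ((h : ℝ) / B)) = 1 := by
      intro h _
      have e1 : (((B : ℤ) * t : ℤ) : ℝ) * ((h : ℝ) / B) = ((t * h : ℤ) : ℝ) := by
        push_cast
        field_simp
      rw [e1]
      exact e_int _
    rw [sum_congr rfl this]
    simp
  · exact sum_char B hB m hm

/-- Parseval -/
lemma parseval (B : ℕ) (hB : 0 < B) (R : ℕ) (hR : R ≤ B) (v : ℕ → ℂ) :
    ∑ h ∈ range B, ‖∑ t ∈ range R, v t * e (t * ((h : ℝ) / B))‖ ^ 2 =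
      B * ∑ t ∈ range R, ‖v t‖ ^ 2 := by
  have key : ∀ z : ℂ, ((‖z‖ ^ 2 : ℝ) : ℂ) = z * (starRingEnd ℂ) z := by
    intro z
    rw [Complex.mul_conj, Complex.normSq_eq_norm_sq]
  apply Complex.ofReal_injective
  push_cast
  have h1 : ∀ h ∈ range B, ((‖∑ t ∈ range R, v t * e (t * ((h : ℝ) / B))‖ : ℂ)) ^ 2 =
      ∑ t ∈ range R, ∑ u ∈ range R, v t * (starRingEnd ℂ) (v u) *
        e (((t : ℤ) - (u : ℤ) : ℤ) * ((h : ℝ) / B)) := by
    intro h _
    have := key (∑ t ∈ range R, v t * e (t * ((h : ℝ) / B)))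
    push_cast at this
    rw [this, map_sum, sum_mul_sum]
    refine sum_congr rfl fun t _ => sum_congr rfl fun u _ => ?_
    rw [map_mul, conj_e]
    have h2 : (((t : ℤ) - (u : ℤ) : ℤ) : ℝ) * ((h : ℝ) / B) = t * ((h : ℝ) / B) + -(u * ((h : ℝ) / B)) := by
      push_cast
      ring
    rw [h2, e_add]
    ring
  rw [sum_congr rfl h1, sum_comm, mul_sum]
  refine sum_congr rfl fun t ht => ?_
  rw [sum_comm]
  have h3 : ∀ u ∈ range R, ∑ h ∈ range B, v t * (starRingEnd ℂ) (v u) *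
      e (((t : ℤ) - (u : ℤ) : ℤ) * ((h : ℝ) / B)) =
      if u = t then (B : ℂ) * (v t * (starRingEnd ℂ) (v t)) else 0 := by
    intro u hu
    rw [← mul_sum, char_sum B hB]
    rw [mem_range] at ht hu
    by_cases hut : u = t
    · subst hut
      simp
      ring
    · rw [if_neg hut, if_neg, mul_zero]
      intro hd
      apply hut
      have h4 := Int.eq_zero_of_abs_lt_dvd hd (by rw [abs_lt]; constructor <;> omega)
      omega
  rw [sum_congr rfl h3, sum_ite_eq' (range R) t, if_pos ht]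
  have := key (v t)
  push_cast at this
  rw [this]

lemma mod_shift_inj (B r t t' : ℕ) (ht : t < B) (ht' : t' < B) (h : (t + r) % B = (t' + r) % B) :
    t = t' := by
  have h1 : t + r ≡ t' + r [MOD B] := h
  have h2 : t ≡ t' [MOD B] := Nat.ModEq.add_right_cancel' r h1
  rwa [Nat.ModEq, Nat.mod_eq_of_lt ht, Nat.mod_eq_of_lt ht'] at h2

/-- summation over a full period -/
lemma sum_period {M : Type*} [AddCommMonoid M] (B : ℕ) (hB : 0 < B) (r : ℕ) (f : ℕ → M) :
    ∑ t ∈ range B, f ((t + r) % B) = ∑ u ∈ range B, f u := by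
  classical
  have h1 : (range B).image (fun t => (t + r) % B) = range B := by
    apply eq_of_subset_of_card_le
    · intro u hu
      rw [mem_image] at hu
      obtain ⟨t, _, rfl⟩ := hu
      exact mem_range.2 (Nat.mod_lt _ hB)
    · rw [card_image_of_injOn]
      intro t ht t' ht' h
      exact mod_shift_inj B r t t' (mem_range.1 ht) (mem_range.1 ht') h
  conv_rhs => rw [← h1]
  rw [sum_image]
  intro t ht t' ht' h
  exact mod_shift_inj B r t t' (mem_range.1 ht) (mem_range.1 ht') h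

/-- A cyclic convolution operator is bounded by its largest Fourier coefficient. -/
theorem conv_bound (B : ℕ) (hB : 0 < B) (R : ℕ) (hR : R ≤ B) (F : ℕ → ℂ) (τ : ℝ) (hτ : 0 ≤ τ)
    (hF : ∀ x : ℝ, ‖∑ n ∈ range B, F n * e (n * x)‖ ≤ τ) (a : ℕ → ℂ) :
    ∑ t ∈ range B, ‖∑ r ∈ range R, a r * F ((t + r) % B)‖ ^ 2 ≤
      τ ^ 2 * ∑ r ∈ range R, ‖a r‖ ^ 2 := by
  have hBr : (0 : ℝ) < B := by exact_mod_cast hB
  set V : ℕ → ℂ := fun t => ∑ r ∈ range R, a r * F ((t + r) % B) with hV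
  have h1 := parseval B hB B le_rfl V
  -- the transform of `V`
  have h2 : ∀ h ∈ range B, ‖∑ t ∈ range B, V t * e (t * ((h : ℝ) / B))‖ ^ 2 ≤
      τ ^ 2 * ‖∑ r ∈ range R, (starRingEnd ℂ) (a r) * e (r * ((h : ℝ) / B))‖ ^ 2 := by
    intro h _
    have e1 : ∑ t ∈ range B, V t * e (t * ((h : ℝ) / B)) =
        (∑ r ∈ range R, a r * e (-(r * ((h : ℝ) / B)))) *
          ∑ u ∈ range B, F u * e (u * ((h : ℝ) / B)) := by
      rw [hV]
      simp only [sum_mul]
      rw [sum_comm]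
      refine sum_congr rfl fun r _ => ?_
      rw [mul_sum, ← sum_period B hB r (fun u => a r * e (-(r * ((h : ℝ) / B))) *
        (F u * e (u * ((h : ℝ) / B))))]
      refine sum_congr rfl fun t _ => ?_
      have e2 : e (t * ((h : ℝ) / B)) = e (-(r * ((h : ℝ) / B))) * e (((t + r) % B : ℕ) * ((h : ℝ) / B)) := by
        obtain ⟨k, hk⟩ : ∃ k : ℕ, t + r = B * k + (t + r) % B := ⟨(t + r) / B, (Nat.div_add_mod _ _).symm⟩
        generalize (t + r) % B = w at hk ⊢
        have e3 : (t : ℝ) + r = (B : ℝ) * k + w := by exact_mod_cast hk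
        have e4 : (t : ℝ) * ((h : ℝ) / B) = -(r * ((h : ℝ) / B)) + (w * ((h : ℝ) / B)) +
            (((k : ℤ) * (h : ℤ) : ℤ) : ℝ) := by
          have e5 : (w : ℝ) = (t : ℝ) + r - (B : ℝ) * k := by linarith
          rw [e5]
          push_cast
          field_simp
          ring
        rw [e4, e_add, e_int, mul_one, e_add]
      rw [e2]
      ring
    rw [e1, norm_mul, mul_pow, mul_comm]
    have e6 : ‖∑ r ∈ range R, a r * e (-(r * ((h : ℝ) / B)))‖ =
        ‖∑ r ∈ range R, (starRingEnd ℂ) (a r) * e (r * ((h : ℝ) / B))‖ := by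
      rw [← Complex.norm_conj, map_sum]
      congr 1
      refine sum_congr rfl fun r _ => ?_
      rw [map_mul, conj_e, neg_neg]
    rw [e6]
    apply mul_le_mul_of_nonneg_right _ (by positivity)
    exact pow_le_pow_left₀ (norm_nonneg _) (hF _) 2
  have h3 := sum_le_sum h2
  rw [h1, ← mul_sum, parseval B hB R hR] at h3
  have h4 : ∑ r ∈ range R, ‖(starRingEnd ℂ) (a r)‖ ^ 2 = ∑ r ∈ range R, ‖a r‖ ^ 2 :=
    sum_congr rfl fun r _ => by rw [Complex.norm_conj]
  rw [h4] at h3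
  have h5 : (B : ℝ) * ∑ t ∈ range B, ‖V t‖ ^ 2 ≤ B * (τ ^ 2 * ∑ r ∈ range R, ‖a r‖ ^ 2) := by
    linarith
  exact le_of_mul_le_mul_left h5 hBr

end Pool.Agent.Run7.h984.DG
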