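import Pool.Agent.Run7.h984.DG.Main

set_option autoImplicit false

/-! # Digital functions in coprime bases and record prime gaps: Diophantine coefficients -/

namespace Pool.Agent.Run7.h984.DG

open Finset Filter
open Pool.Agent.W147.PS (ff ff_compare ev_pow)
open Pool.Agent.TH915.PW (GS GS_frequent dist_of_approx)
open Pool.Agent.Y961.JR (ev_lower)

variable {ι : Type} [Fintype ι] [DecidableEq ι] [Nonempty ι]

/-- Diophantine coefficients, `r ≥ 1` -/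
theorem dioph_pos (b : ι → ℕ) (hb : ∀ i, 2 ≤ b i)
    (hcop : ∀ i j, i ≠ j → Nat.Coprime (b i) (b j))
    (G : ι → Type) [∀ i, AddCommGroup (G i)] [∀ i, Fintype (G i)] (S : ∀ i, ℕ → G i)
    (hS : ∀ i n d, d < b i → S i (b i * n + d) = S i n + S i d)
    (hN : ∀ i, ∀ χ : AddChar (G i) ℂ, χ ≠ 0 →
      ¬ (χ (S i 1) ^ (b i - 1) = 1 ∧ ∀ d < b i, χ (S i d) = χ (S i 1) ^ d))
    (r : ℕ) (hr : 1 ≤ r) (τ : ℝ) (hτ : 0 ≤ τ) :
    ∃ κ : ℝ, 0 < κ ∧ ∀ α β : Fin r → ℝ, (∀ j, 0 < α j) →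
    (∃ c : ℝ, 0 < c ∧ ∀ (H : ℕ) (h : Fin r → ℤ), h ≠ 0 → (∀ j, |h j| ≤ H) → ∀ m : ℤ,
      c * (H : ℝ) ^ (-τ) ≤ |∑ j, (h j : ℝ) * α j - m|) →
    ∃ Z₀ : ℝ, ∀ Z : ℝ, Z₀ ≤ Z → ∀ M : ℝ, Z ≤ M → ∀ g : ∀ i, G i,
    ∃ n : ℕ, M < n ∧ (n : ℝ) ≤ M + Z ∧ (∀ i, S i n = g i) ∧
      (∀ q : ℕ, q.Prime → κ * ff Z < |(q : ℝ) - n|) ∧
      ∀ j, ∀ q : ℕ, q.Prime → κ * ff Z < |(q : ℝ) - (α j * n + β j)| := by
  obtain ⟨σ, hσ0, hσ8, hun⟩ := uniform b hb hcop G S hS hN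
  set η : ℝ := σ / (τ + 2) with hη
  have hη0 : 0 < η := by positivity
  have hητ : η * (τ + 2) = σ := by rw [hη]; field_simp
  have hησ : η ≤ σ / 2 := by nlinarith
  have hη1 : η < 1 := by linarith
  obtain ⟨κ, hκ, Z₁, h1⟩ := hun r hr η hη0 hησ
  refine ⟨κ, hκ, ?_⟩
  intro α β hα ⟨c, hc, hdio⟩
  have hexp : -σ < -(η * τ) := by nlinarith
  obtain ⟨Z₂, h2⟩ := eventually_atTop.mp ((ev_lower η hη1 α β hα).and
    ((ev_pow (-σ) (-(η * τ)) (1 / c) hexp).and (eventually_ge_atTop (1 : ℝ))))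
  refine ⟨max Z₁ Z₂, fun Z hZ M hM => ?_⟩
  obtain ⟨g1, g2, g3⟩ := h2 Z ((le_max_right _ _).trans hZ)
  have hZ0 : 0 < Z := by linarith
  refine h1 Z ((le_max_left _ _).trans hZ) α β ?_ M hM (fun n hn j => g1 M hM n hn j)
  intro h hh hhZ m
  set H : ℕ := ⌊Z ^ η⌋₊ with hH
  have hHZ : (H : ℝ) ≤ Z ^ η := Nat.floor_le (Real.rpow_nonneg hZ0.le _)
  have hhH : ∀ j, |h j| ≤ (H : ℤ) := by
    intro j
    have h3 : ((h j).natAbs : ℝ) ≤ Z ^ η := by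
      rw [Nat.cast_natAbs]
      push_cast
      exact hhZ j
    have h4 : (h j).natAbs ≤ H := Nat.le_floor h3
    rw [Int.abs_eq_natAbs]
    exact_mod_cast h4
  have hH1 : 1 ≤ H := Nat.le_floor (by
    rw [Nat.cast_one]
    exact Real.one_le_rpow g3 hη0.le)
  have hH0 : (0 : ℝ) < H := by exact_mod_cast hH1
  refine le_trans ?_ (hdio H h hh hhH m)
  have e1 : (Z ^ η) ^ (-τ) ≤ (H : ℝ) ^ (-τ) :=
    Real.rpow_le_rpow_of_nonpos hH0 hHZ (by linarith)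
  have e2 : (Z ^ η) ^ (-τ) = Z ^ (-(η * τ)) := by
    rw [← Real.rpow_mul hZ0.le]
    congr 1
    ring
  rw [e2] at e1
  have e3 : Z ^ (-σ) ≤ c * Z ^ (-(η * τ)) := by
    rw [one_div, inv_mul_le_iff₀ hc] at g2
    exact g2
  exact e3.trans (mul_le_mul_of_nonneg_left e1 hc.le)

/-- the square root of two is badly approximable -/
lemma sqrt_two_dioph : ∃ c : ℝ, 0 < c ∧ ∀ (H : ℕ) (h : Fin 1 → ℤ), h ≠ 0 → (∀ j, |h j| ≤ H) →
    ∀ m : ℤ, c * (H : ℝ) ^ (-(1 : ℝ)) ≤ |∑ j, (h j : ℝ) * (fun _ : Fin 1 => √2) j - m| := by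
  refine ⟨1 / 4, by norm_num, ?_⟩
  intro H h hh hH m
  rw [Fin.sum_univ_one]
  have h0 : h 0 ≠ 0 := by
    intro h0
    apply hh
    funext j
    rw [Subsingleton.elim j 0, h0]
    rfl
  have h1 : (1 : ℝ) ≤ |(h 0 : ℝ)| := by exact_mod_cast Int.one_le_abs h0
  have h2 : |(h 0 : ℝ)| ≤ H := by exact_mod_cast hH 0
  have hH0 : (0 : ℝ) < H := by linarith
  have hs0 : 0 ≤ √2 := Real.sqrt_nonneg _
  have hs2 : √2 * √2 = 2 := Real.mul_self_sqrt (by norm_num)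
  have hs3 : √2 ≤ 3 / 2 := by nlinarith
  rw [Real.rpow_neg_one, one_div, ← mul_inv]
  set x : ℝ := (h 0 : ℝ) * √2 - m with hx
  set y : ℝ := (h 0 : ℝ) * √2 + m with hy
  have hxy : x * y = ((2 * h 0 ^ 2 - m ^ 2 : ℤ) : ℝ) := by
    rw [hx, hy]
    push_cast
    linear_combination (h 0 : ℝ) ^ 2 * hs2
  have hne : (2 * h 0 ^ 2 - m ^ 2 : ℤ) ≠ 0 := by
    intro h3
    have h4 : x * y = 0 := by rw [hxy, h3]; simp
    have hirr := irrational_sqrt_two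
    rcases mul_eq_zero.1 h4 with h5 | h5
    · have : √2 = ((m / h 0 : ℚ) : ℝ) := by
        push_cast
        rw [eq_div_iff (by exact_mod_cast h0)]
        linarith
      exact hirr ⟨_, this.symm⟩
    · have : √2 = ((-m / h 0 : ℚ) : ℝ) := by
        push_cast
        rw [eq_div_iff (by exact_mod_cast h0)]
        linarith
      exact hirr ⟨_, this.symm⟩
  have h3 : 1 ≤ |x| * |y| := by
    rw [← abs_mul, hxy]
    exact_mod_cast Int.one_le_abs hne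
  by_contra hcon
  push Not at hcon
  have hc1 : |x| < 1 := by
    refine hcon.trans_le ?_
    rw [inv_le_one₀ (by positivity)]
    linarith
  have h4 : |y| ≤ 4 * H := by
    have h5 : y = 2 * ((h 0 : ℝ) * √2) - x := by rw [hx, hy]; ring
    have h6 : |(h 0 : ℝ) * √2| ≤ H * (3 / 2) := by
      rw [abs_mul, abs_of_nonneg hs0]
      gcongr
    rw [h5]
    calc |2 * ((h 0 : ℝ) * √2) - x| ≤ |2 * ((h 0 : ℝ) * √2)| + |x| := abs_sub _ _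
      _ = 2 * |(h 0 : ℝ) * √2| + |x| := by rw [abs_mul, abs_two]
      _ ≤ 4 * H := by linarith
  have h7 : |x| * |y| < 1 := by
    calc |x| * |y| ≤ |x| * (4 * H) := mul_le_mul_of_nonneg_left h4 (abs_nonneg _)
      _ < (4 * (H : ℝ))⁻¹ * (4 * H) := mul_lt_mul_of_pos_right hcon (by positivity)
      _ = 1 := inv_mul_cancel₀ (by positivity)
  linarith

/-- Diophantine coefficients, every `r` -/
theorem dioph (b : ι → ℕ) (hb : ∀ i, 2 ≤ b i)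
    (hcop : ∀ i j, i ≠ j → Nat.Coprime (b i) (b j))
    (G : ι → Type) [∀ i, AddCommGroup (G i)] [∀ i, Fintype (G i)] (S : ∀ i, ℕ → G i)
    (hS : ∀ i n d, d < b i → S i (b i * n + d) = S i n + S i d)
    (hN : ∀ i, ∀ χ : AddChar (G i) ℂ, χ ≠ 0 →
      ¬ (χ (S i 1) ^ (b i - 1) = 1 ∧ ∀ d < b i, χ (S i d) = χ (S i 1) ^ d))
    (r : ℕ) (τ : ℝ) (hτ : 0 ≤ τ) :
    ∃ κ : ℝ, 0 < κ ∧ ∀ α β : Fin r → ℝ, (∀ j, 0 < α j) →
    (∃ c : ℝ, 0 < c ∧ ∀ (H : ℕ) (h : Fin r → ℤ), h ≠ 0 → (∀ j, |h j| ≤ H) → ∀ m : ℤ,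
      c * (H : ℝ) ^ (-τ) ≤ |∑ j, (h j : ℝ) * α j - m|) →
    ∃ Z₀ : ℝ, ∀ Z : ℝ, Z₀ ≤ Z → ∀ M : ℝ, Z ≤ M → ∀ g : ∀ i, G i,
    ∃ n : ℕ, M < n ∧ (n : ℝ) ≤ M + Z ∧ (∀ i, S i n = g i) ∧
      (∀ q : ℕ, q.Prime → κ * ff Z < |(q : ℝ) - n|) ∧
      ∀ j, ∀ q : ℕ, q.Prime → κ * ff Z < |(q : ℝ) - (α j * n + β j)| := by
  rcases Nat.eq_zero_or_pos r with rfl | hr
  · obtain ⟨κ, hκ, h1⟩ := dioph_pos b hb hcop G S hS hN 1 le_rfl 1 zero_le_one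
    obtain ⟨Z₀, h2⟩ := h1 (fun _ => √2) (fun _ => 0) (fun _ => by positivity) sqrt_two_dioph
    refine ⟨κ, hκ, fun α β _ _ => ⟨Z₀, fun Z hZ M hM g => ?_⟩⟩
    obtain ⟨n, k1, k2, k3, k4, _⟩ := h2 Z hZ M hM g
    exact ⟨n, k1, k2, k3, k4, fun j => j.elim0⟩
  · exact dioph_pos b hb hcop G S hS hN r hr τ hτ

/-- one irrational coefficient -/
theorem irrational_scale (b : ι → ℕ) (hb : ∀ i, 2 ≤ b i)
    (hcop : ∀ i j, i ≠ j → Nat.Coprime (b i) (b j))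
    (G : ι → Type) [∀ i, AddCommGroup (G i)] [∀ i, Fintype (G i)] (S : ∀ i, ℕ → G i)
    (hS : ∀ i n d, d < b i → S i (b i * n + d) = S i n + S i d)
    (hN : ∀ i, ∀ χ : AddChar (G i) ℂ, χ ≠ 0 →
      ¬ (χ (S i 1) ^ (b i - 1) = 1 ∧ ∀ d < b i, χ (S i d) = χ (S i 1) ^ d)) :
    ∃ κ : ℝ, 0 < κ ∧ ∀ α β : ℝ, 0 < α → Irrational α →
    ∀ Z₁ : ℝ, ∃ Z : ℝ, Z₁ ≤ Z ∧ ∀ M : ℝ, Z ≤ M → ∀ g : ∀ i, G i,
    ∃ n : ℕ, M < n ∧ (n : ℝ) ≤ M + Z ∧ (∀ i, S i n = g i) ∧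
      (∀ q : ℕ, q.Prime → κ * ff Z < |(q : ℝ) - n|) ∧
      ∀ q : ℕ, q.Prime → κ * ff Z < |(q : ℝ) - (α * n + β)| := by
  obtain ⟨σ, hσ0, hσ8, hun⟩ := uniform b hb hcop G S hS hN
  obtain ⟨κ, hκ, Z₂, h1⟩ := hun 1 le_rfl (σ / 2) (by positivity) le_rfl
  refine ⟨κ, hκ, ?_⟩
  intro α β hα hirr Z₁
  obtain ⟨Z₃, h2⟩ := eventually_atTop.mp
    ((ev_lower (σ / 2) (by linarith) (fun _ : Fin 1 => α) (fun _ => β) (fun _ => hα)).and
    (eventually_ge_atTop (1 : ℝ)))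
  -- a large denominator
  set Y : ℝ := max (max Z₁ 1) (max Z₂ (max Z₃ 16)) with hY
  obtain ⟨W, hW, a, D, hcop', hD1, hD2, hap⟩ := GS_frequent hirr (1 / 2) le_rfl (Y ^ 2)
  have hY16 : 16 ≤ Y := ((le_max_right _ _).trans (le_max_right _ _)).trans (le_max_right _ _)
  have hY0 : 0 < Y := by linarith
  have hW0 : 0 < W := by nlinarith
  have hDY : Y ≤ D := by
    refine le_trans ?_ hD1
    calc Y = (Y ^ 2) ^ (1 / 2 : ℝ) := by rw [← Real.sqrt_eq_rpow, Real.sqrt_sq hY0.le]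
      _ ≤ W ^ (1 / 2 : ℝ) := Real.rpow_le_rpow (by positivity) hW (by norm_num)
  have hD0 : (0 : ℝ) < D := by linarith
  have h2D : (1 : ℝ) ≤ 2 * D := by linarith
  set Z : ℝ := (2 * (D : ℝ)) ^ (1 / σ) with hZ
  have hσinv : 1 ≤ 1 / σ := by
    rw [le_div_iff₀ hσ0]
    linarith
  have hZD : 2 * (D : ℝ) ≤ Z := by
    rw [hZ]
    calc 2 * (D : ℝ) = (2 * (D : ℝ)) ^ (1 : ℝ) := (Real.rpow_one _).symm
      _ ≤ _ := Real.rpow_le_rpow_of_exponent_le h2D hσinv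
  have hYZ : Y ≤ Z := by linarith
  have hZ0 : 0 < Z := by linarith
  have hZσ : Z ^ σ = 2 * D := by
    rw [hZ, ← Real.rpow_mul (by positivity), one_div, inv_mul_cancel₀ hσ0.ne', Real.rpow_one]
  have hZσ2 : (Z ^ (σ / 2)) ^ 2 = 2 * D := by
    rw [← hZσ, ← Real.rpow_natCast, ← Real.rpow_mul hZ0.le]
    congr 1
    push_cast
    ring
  obtain ⟨g1, g4⟩ := h2 Z ((((le_max_left _ _).trans (le_max_right _ _)).trans
    (le_max_right _ _)).trans hYZ)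
  refine ⟨Z, (((le_max_left _ _).trans (le_max_left _ _)).trans hYZ), fun M hM g => ?_⟩
  obtain ⟨n, k1, k2, k3, k4, k5⟩ := h1 Z (((le_max_left _ _).trans (le_max_right _ _)).trans hYZ)
    (fun _ => α) (fun _ => β) (by
    intro h hh hhZ m
    rw [Fin.sum_univ_one]
    have hT0 : h 0 ≠ 0 := by
      intro h0
      apply hh
      funext j
      rw [Subsingleton.elim j 0, h0]
      rfl
    set T : ℕ := (h 0).natAbs with hT
    have hT1 : 1 ≤ T := Int.natAbs_pos.mpr hT0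
    have hTZ : (T : ℝ) ≤ Z ^ (σ / 2) := by
      rw [hT, Nat.cast_natAbs]
      push_cast
      exact hhZ 0
    have hTD : 2 * T ≤ D := by
      have : 2 * (T : ℝ) ≤ D := by
        have h3 : 0 ≤ Z ^ (σ / 2) := by positivity
        have h4 : 2 * Z ^ (σ / 2) ≤ D := by
          apply le_of_sq_le_sq _ hD0.le
          calc (2 * Z ^ (σ / 2)) ^ 2 = 4 * (2 * D) := by rw [mul_pow, hZσ2]; norm_num
            _ ≤ (D : ℝ) ^ 2 := by nlinarith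
        linarith
      exact_mod_cast this
    have key := dist_of_approx hcop' hap hT1 hTD
    have e1 : Z ^ (-σ) = 1 / (2 * (D : ℝ)) := by
      rw [Real.rpow_neg hZ0.le, hZσ, one_div]
    rw [e1]
    rcases le_total 0 (h 0) with h5 | h5
    · have e2 : ((h 0 : ℤ) : ℝ) = T := by
        rw [hT, Nat.cast_natAbs, abs_of_nonneg h5]
      rw [e2]
      exact key m
    · have e2 : ((h 0 : ℤ) : ℝ) = -T := by
        rw [hT, Nat.cast_natAbs, abs_of_nonpos h5]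
        push_cast
        ring
      rw [e2]
      have e3 : -(T : ℝ) * α - m = -((T : ℝ) * α - ((-m : ℤ) : ℝ)) := by
        push_cast
        ring
      rw [e3, abs_neg]
      exact key (-m)) M hM (fun n hn j => g1 M hM n hn j) g
  exact ⟨n, k1, k2, k3, k4, k5 0⟩

end Pool.Agent.Run7.h984.DG
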