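import Pool.Agent.Run7.h984.DG.Conv
import Pool.Agent.TH915.PW.Digits

set_option autoImplicit false

/-! # Sums of products of digital functions in coprime bases -/

namespace Pool.Agent.Run7.h984.DG

open Finset
open Pool.Agent.H469R2.NK (e norm_e e_add conj_e e_zero)
open Pool.Agent.TH915.PW (e_int sum_char sum_blocks)

/-- averaging over shifts -/
lemma shift_avg (g : ℕ → ℂ) (hg : ∀ n, ‖g n‖ ≤ 1) (A N R : ℕ) (hR : 1 ≤ R) :
    ‖∑ t ∈ range N, g (A + t)‖ ≤ 2 * R + (∑ t ∈ range N, ‖∑ r ∈ range R, g (A + t + r)‖) / R := by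
  have hR0 : (0 : ℝ) < R := by exact_mod_cast hR
  have h1 : ∀ r ∈ range R, ‖∑ t ∈ range N, g (A + t) - ∑ t ∈ range N, g (A + t + r)‖ ≤ 2 * R := by
    intro r hr
    have e1 : ∑ t ∈ range (N + r), g (A + t) =
        ∑ t ∈ range N, g (A + t) + ∑ t ∈ range r, g (A + (N + t)) := sum_range_add _ _ _
    have e2 : ∑ t ∈ range (r + N), g (A + t) =
        ∑ t ∈ range r, g (A + t) + ∑ t ∈ range N, g (A + (r + t)) := sum_range_add _ _ _
    have e3 : ∑ t ∈ range N, g (A + (r + t)) = ∑ t ∈ range N, g (A + t + r) :=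
      sum_congr rfl fun t _ => by congr 1; ring
    rw [add_comm r N, e1, e3] at e2
    have e4 : ∑ t ∈ range N, g (A + t) - ∑ t ∈ range N, g (A + t + r) =
        ∑ t ∈ range r, g (A + t) - ∑ t ∈ range r, g (A + (N + t)) := by
      linear_combination e2
    rw [e4]
    have hb : ∀ (u : ℕ → ℕ), ‖∑ t ∈ range r, g (u t)‖ ≤ r := by
      intro u
      refine (norm_sum_le _ _).trans ?_
      refine (sum_le_sum fun t _ => hg (u t)).trans ?_
      simp
    refine (norm_sub_le _ _).trans ?_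
    have h2 := hb (fun t => A + t)
    have h3 := hb (fun t => A + (N + t))
    have h4 : (r : ℝ) ≤ R := by exact_mod_cast (mem_range.1 hr).le

    linarith
  have h2 : ‖∑ r ∈ range R, (∑ t ∈ range N, g (A + t) - ∑ t ∈ range N, g (A + t + r))‖ ≤
      R * (2 * R) := by
    refine (norm_sum_le _ _).trans ((sum_le_sum h1).trans ?_)
    simp
  rw [sum_sub_distrib, sum_const, card_range, nsmul_eq_mul] at h2
  have h3 : ‖∑ r ∈ range R, ∑ t ∈ range N, g (A + t + r)‖ ≤
      ∑ t ∈ range N, ‖∑ r ∈ range R, g (A + t + r)‖ := by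
    rw [sum_comm]
    exact norm_sum_le _ _
  have h4 : ‖(R : ℂ) * ∑ t ∈ range N, g (A + t)‖ ≤ R * (2 * R) +
      ∑ t ∈ range N, ‖∑ r ∈ range R, g (A + t + r)‖ := by
    have := norm_add_le ((R : ℂ) * ∑ t ∈ range N, g (A + t) -
      ∑ r ∈ range R, ∑ t ∈ range N, g (A + t + r)) (∑ r ∈ range R, ∑ t ∈ range N, g (A + t + r))
    rw [sub_add_cancel] at this
    linarith
  rw [norm_mul, Complex.norm_natCast] at h4
  have h5 : ‖∑ t ∈ range N, g (A + t)‖ ≤ (R * (2 * R) +
      ∑ t ∈ range N, ‖∑ r ∈ range R, g (A + t + r)‖) / R := by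
    rw [le_div_iff₀ hR0, mul_comm]
    exact h4
  refine h5.trans (le_of_eq ?_)
  field_simp

/-- the Chinese remainder theorem for sums -/
lemma crt_sum {M : Type*} [AddCommMonoid M] (B C : ℕ) (hB : 0 < B) (hC : 0 < C)
    (h : Nat.Coprime B C) (Φ : ℕ → ℕ → M) :
    ∑ t ∈ range (B * C), Φ (t % B) (t % C) = ∑ x ∈ range B, ∑ y ∈ range C, Φ x y := by
  classical
  rw [← sum_product']
  have hinj : Set.InjOn (fun t => (t % B, t % C)) (range (B * C) : Finset ℕ) := by
    intro t ht t' ht' heq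
    rw [mem_coe, mem_range] at ht ht'
    simp only [Prod.mk.injEq] at heq
    have h1 : t ≡ t' [MOD B * C] := (Nat.modEq_and_modEq_iff_modEq_mul h).1 ⟨heq.1, heq.2⟩
    rwa [Nat.ModEq, Nat.mod_eq_of_lt ht, Nat.mod_eq_of_lt ht'] at h1
  have himg : (range (B * C)).image (fun t => (t % B, t % C)) = range B ×ˢ range C := by
    apply eq_of_subset_of_card_le
    · intro p hp
      rw [mem_image] at hp
      obtain ⟨t, _, rfl⟩ := hp
      exact mem_product.2 ⟨mem_range.2 (Nat.mod_lt _ hB), mem_range.2 (Nat.mod_lt _ hC)⟩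
    · rw [card_image_of_injOn hinj, card_product, card_range, card_range, card_range]
  rw [← himg, sum_image hinj]

variable {ι : Type} [Fintype ι] [DecidableEq ι]

/-- the number of the integers near the end of a block -/
lemma bad_count (B C R : ℕ) (hB : 0 < B) :
    ((range (B * C)).filter (fun t => B < t % B + R)).card ≤ C * R := by
  rw [card_filter, sum_blocks]
  calc ∑ m ∈ range C, ∑ d ∈ range B, (if B < (B * m + d) % B + R then 1 else 0)
      ≤ ∑ m ∈ range C, R := by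
        refine sum_le_sum fun m _ => ?_
        have h1 : ∀ d ∈ range B, (if B < (B * m + d) % B + R then 1 else 0) =
            (if B < d + R then 1 else 0) := by
          intro d hd
          rw [Nat.mul_add_mod, Nat.mod_eq_of_lt (mem_range.1 hd)]
        rw [sum_congr rfl h1, ← card_filter]
        have h2 : (range B).filter (fun d => B < d + R) ⊆ Ico (B - R) B := by
          intro d hd
          rw [mem_filter, mem_range] at hd
          rw [mem_Ico]
          omega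
        refine (card_le_card h2).trans ?_
        rw [Nat.card_Ico]
        omega
    _ = C * R := by rw [sum_const, card_range, smul_eq_mul]

/-- no carries: the inner sum depends only on the residues -/
lemma no_carry (B : ι → ℕ) (hB : ∀ i, 0 < B i) (f : ι → ℕ → ℂ) (hf1 : ∀ i n, ‖f i n‖ = 1)
    (hf : ∀ i m n, n < B i → f i (B i * m + n) = f i m * f i n) (θ : ℝ) (A t R : ℕ)
    (hA : ∀ i, B i ∣ A) (ht : ∀ i, t % B i + R ≤ B i) :
    ‖∑ r ∈ range R, (∏ i, f i (A + t + r)) * e ((A + t + r : ℕ) * θ)‖ =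
      ‖∑ r ∈ range R, (∏ i, f i ((t + r) % B i)) * e (r * θ)‖ := by
  have h1 : ∀ r ∈ range R, (∏ i, f i (A + t + r)) * e ((A + t + r : ℕ) * θ) =
      ((∏ i, f i (A / B i + t / B i)) * e ((A + t : ℕ) * θ)) *
        ((∏ i, f i ((t + r) % B i)) * e (r * θ)) := by
    intro r hr
    rw [mem_range] at hr
    have h2 : ∀ i, f i (A + t + r) = f i (A / B i + t / B i) * f i ((t + r) % B i) := by
      intro i
      have h3 := ht i
      have h4 : t % B i + r < B i := by omega
      have h5 : (t + r) % B i = t % B i + r := by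
        rw [Nat.add_mod, Nat.mod_eq_of_lt (show r < B i by omega), Nat.mod_eq_of_lt h4]
      have h6 : A + t + r = B i * (A / B i + t / B i) + (t % B i + r) := by
        have h7 := Nat.div_add_mod t (B i)
        have h8 : B i * (A / B i) = A := Nat.mul_div_cancel' (hA i)
        rw [mul_add, h8]
        omega
      rw [h5, h6, hf i _ _ h4]
    have h9 : ((A + t + r : ℕ) : ℝ) * θ = (A + t : ℕ) * θ + r * θ := by push_cast; ring
    rw [prod_congr rfl (fun i _ => h2 i), prod_mul_distrib, h9, e_add]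
    ring
  rw [sum_congr rfl h1, ← mul_sum, norm_mul, norm_mul, norm_e, mul_one, norm_prod,
    prod_congr rfl (fun i _ => hf1 i _), prod_const_one, one_mul]

/-- the mean square of the inner sums -/
lemma mean_square (B : ι → ℕ) (hB : ∀ i, 0 < B i)
    (hcop : ∀ i j, i ≠ j → Nat.Coprime (B i) (B j)) (f : ι → ℕ → ℂ) (hf1 : ∀ i n, ‖f i n‖ = 1)
    (i₀ : ι) (τ : ℝ) (hτ : 0 ≤ τ) (hF : ∀ x : ℝ, ‖∑ n ∈ range (B i₀), f i₀ n * e (n * x)‖ ≤ τ)
    (R : ℕ) (hR : R ≤ B i₀) (θ : ℝ) :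
    ∑ t ∈ range (∏ i, B i), ‖∑ r ∈ range R, (∏ i, f i ((t + r) % B i)) * e (r * θ)‖ ^ 2 ≤
      (∏ i ∈ univ.erase i₀, B i : ℕ) * (τ ^ 2 * R) := by
  set C : ℕ := ∏ i ∈ univ.erase i₀, B i with hC
  have hC0 : 0 < C := prod_pos fun i _ => hB i
  have hQ : ∏ i, B i = B i₀ * C := (mul_prod_erase univ B (mem_univ i₀)).symm
  have hcopC : Nat.Coprime (B i₀) C :=
    Nat.Coprime.prod_right fun i hi => hcop _ _ (ne_of_mem_erase hi).symm
  set a : ℕ → ℕ → ℂ := fun y r => (∏ i ∈ univ.erase i₀, f i ((y + r) % B i)) * e (r * θ) with ha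
  have h1 : ∀ t ∈ range (∏ i, B i),
      ‖∑ r ∈ range R, (∏ i, f i ((t + r) % B i)) * e (r * θ)‖ ^ 2 =
      ‖∑ r ∈ range R, a (t % C) r * f i₀ ((t % B i₀ + r) % B i₀)‖ ^ 2 := by
    intro t _
    congr 2
    refine sum_congr rfl fun r _ => ?_
    rw [← mul_prod_erase univ _ (mem_univ i₀), ha]
    have e1 : (t % B i₀ + r) % B i₀ = (t + r) % B i₀ := by rw [Nat.mod_add_mod]
    have e2 : ∏ i ∈ univ.erase i₀, f i ((t % C + r) % B i) =
        ∏ i ∈ univ.erase i₀, f i ((t + r) % B i) := by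
      refine prod_congr rfl fun i hi => ?_
      congr 1
      have hdvd : B i ∣ C := dvd_prod_of_mem B hi
      rw [Nat.add_mod, Nat.mod_mod_of_dvd t hdvd, ← Nat.add_mod]
    simp only [e1, e2]
    ring
  rw [sum_congr rfl h1, hQ, crt_sum (B i₀) C (hB i₀) hC0 hcopC
    (fun x y => ‖∑ r ∈ range R, a y r * f i₀ ((x + r) % B i₀)‖ ^ 2), sum_comm]
  have h2 : ∀ y ∈ range C, ∑ x ∈ range (B i₀), ‖∑ r ∈ range R, a y r * f i₀ ((x + r) % B i₀)‖ ^ 2 ≤
      τ ^ 2 * R := by
    intro y _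
    refine (conv_bound (B i₀) (hB i₀) R hR (f i₀) τ hτ hF (a y)).trans ?_
    apply mul_le_mul_of_nonneg_left _ (by positivity)
    have h3 : ∀ r ∈ range R, ‖a y r‖ ^ 2 = 1 := by
      intro r _
      rw [ha]
      simp only
      rw [norm_mul, norm_e, mul_one, norm_prod, prod_congr rfl (fun i _ => hf1 i _),
        prod_const_one, one_pow]
    rw [sum_congr rfl h3]
    simp
  refine (sum_le_sum h2).trans ?_
  rw [sum_const, card_range, nsmul_eq_mul]

/-- **The joint bound.** -/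
theorem joint_bound (B : ι → ℕ) (hB : ∀ i, 0 < B i)
    (hcop : ∀ i j, i ≠ j → Nat.Coprime (B i) (B j)) (f : ι → ℕ → ℂ) (hf1 : ∀ i n, ‖f i n‖ = 1)
    (hf : ∀ i m n, n < B i → f i (B i * m + n) = f i m * f i n)
    (i₀ : ι) (τ : ℝ) (hτ : 0 ≤ τ) (hF : ∀ x : ℝ, ‖∑ n ∈ range (B i₀), f i₀ n * e (n * x)‖ ≤ τ)
    (R : ℕ) (hR1 : 1 ≤ R) (hR : R ≤ B i₀) (θ : ℝ) (m₀ : ℕ) :
    ‖∑ t ∈ range (∏ i, B i), (∏ i, f i ((∏ i, B i) * m₀ + t)) * e (((∏ i, B i) * m₀ + t : ℕ) * θ)‖ ≤
      2 * R + (∑ i, (R : ℝ) / B i) * (∏ i, B i : ℕ) +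
        (∏ i, B i : ℕ) * (τ / Real.sqrt (B i₀ * R)) := by
  set Q : ℕ := ∏ i, B i with hQ
  have hQ0 : 0 < Q := prod_pos fun i _ => hB i
  have hQr : (0 : ℝ) < Q := by exact_mod_cast hQ0
  have hR0 : (0 : ℝ) < R := by exact_mod_cast hR1
  have hBr : ∀ i, (0 : ℝ) < B i := fun i => by exact_mod_cast hB i
  set g : ℕ → ℂ := fun n => (∏ i, f i n) * e ((n : ℕ) * θ) with hg
  have hg1 : ∀ n, ‖g n‖ ≤ 1 := by
    intro n
    rw [hg]
    simp only
    rw [norm_mul, norm_e, mul_one, norm_prod, prod_congr rfl (fun i _ => hf1 i _), prod_const_one]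
  have h1 := shift_avg g hg1 (Q * m₀) Q R hR1
  refine h1.trans ?_
  set W : ℕ → ℝ := fun t => ‖∑ r ∈ range R, (∏ i, f i ((t + r) % B i)) * e (r * θ)‖ with hW
  have hdvd : ∀ i, B i ∣ Q * m₀ := fun i => (dvd_prod_of_mem B (mem_univ i)).mul_right _
  -- pointwise bound
  have h2 : ∀ t ∈ range Q, ‖∑ r ∈ range R, g (Q * m₀ + t + r)‖ ≤
      W t + ∑ i, (if B i < t % B i + R then (R : ℝ) else 0) := by
    intro t _
    by_cases hgood : ∀ i, t % B i + R ≤ B i
    · have := no_carry B hB f hf1 hf θ (Q * m₀) t R hdvd hgood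
      have h3 : 0 ≤ ∑ i, (if B i < t % B i + R then (R : ℝ) else 0) :=
        sum_nonneg fun i _ => by split_ifs <;> linarith
      have h4 : ‖∑ r ∈ range R, g (Q * m₀ + t + r)‖ = W t := this
      linarith
    · push Not at hgood
      obtain ⟨i, hi⟩ := hgood
      have h3 : (R : ℝ) ≤ ∑ i, (if B i < t % B i + R then (R : ℝ) else 0) := by
        have h4 := single_le_sum (f := fun i => if B i < t % B i + R then (R : ℝ) else 0)
          (s := univ) (fun j _ => by split_ifs <;> linarith) (mem_univ i)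
        simp only [if_pos hi] at h4
        exact h4
      have h5 : ‖∑ r ∈ range R, g (Q * m₀ + t + r)‖ ≤ R := by
        refine (norm_sum_le _ _).trans ((sum_le_sum fun r _ => hg1 _).trans ?_)
        simp
      have h6 : 0 ≤ W t := norm_nonneg _
      linarith
  have h3 : ∑ t ∈ range Q, ‖∑ r ∈ range R, g (Q * m₀ + t + r)‖ ≤
      ∑ t ∈ range Q, W t + ∑ i, ((Q : ℝ) / B i * R) * R := by
    refine (sum_le_sum h2).trans ?_
    rw [sum_add_distrib, sum_comm]
    apply add_le_add le_rfl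
    refine sum_le_sum fun i _ => ?_
    have h4 : ∑ t ∈ range Q, (if B i < t % B i + R then (R : ℝ) else 0) =
        ((range Q).filter (fun t => B i < t % B i + R)).card * R := by
      rw [← sum_filter, sum_const, nsmul_eq_mul]
    rw [h4]
    apply mul_le_mul_of_nonneg_right _ hR0.le
    have h5 : Q = B i * (Q / B i) := (Nat.mul_div_cancel' (dvd_prod_of_mem B (mem_univ i))).symm
    have h6 := bad_count (B i) (Q / B i) R (hB i)
    rw [← h5] at h6
    have h7 : ((Q / B i : ℕ) : ℝ) = (Q : ℝ) / B i := by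
      rw [eq_div_iff (hBr i).ne', mul_comm]
      exact_mod_cast h5.symm
    rw [← h7]
    exact_mod_cast h6
  -- the mean square
  have h4 := mean_square B hB hcop f hf1 i₀ τ hτ hF R hR θ
  have h5 : (∑ t ∈ range Q, W t) ^ 2 ≤ Q * (((Q : ℝ) / B i₀) * (τ ^ 2 * R)) := by
    have h6 := sq_sum_le_card_mul_sum_sq (s := range Q) (f := W)
    rw [card_range] at h6
    refine h6.trans (mul_le_mul_of_nonneg_left ?_ hQr.le)
    refine h4.trans (le_of_eq ?_)
    congr 1
    rw [eq_div_iff (hBr i₀).ne', mul_comm]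
    exact_mod_cast (mul_prod_erase univ B (mem_univ i₀))
  have h6 : (∑ t ∈ range Q, W t) / R ≤ Q * (τ / Real.sqrt (B i₀ * R)) := by
    have h7 : 0 ≤ ∑ t ∈ range Q, W t := sum_nonneg fun t _ => norm_nonneg _
    have h8 : 0 < (B i₀ : ℝ) * R := mul_pos (hBr i₀) hR0
    apply le_of_sq_le_sq _ (by positivity)
    rw [div_pow, mul_pow, div_pow, Real.sq_sqrt h8.le, div_le_iff₀ (by positivity)]
    refine h5.trans (le_of_eq ?_)
    have := (hBr i₀).ne'
    field_simp
  have h7 : (∑ i, ((Q : ℝ) / B i * R) * R) / R = (∑ i, (R : ℝ) / B i) * Q := by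
    rw [sum_div, sum_mul]
    refine sum_congr rfl fun i _ => ?_
    have := (hBr i).ne'
    field_simp
  have h8 : (∑ t ∈ range Q, ‖∑ r ∈ range R, g (Q * m₀ + t + r)‖) / R ≤
      (∑ t ∈ range Q, W t) / R + (∑ i, ((Q : ℝ) / B i * R) * R) / R := by
    rw [← add_div]
    exact div_le_div_of_nonneg_right h3 hR0.le
  rw [h7] at h8
  linarith

end Pool.Agent.Run7.h984.DG
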