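import Pool.Agent.Run7.h984.DG.Saving
import Pool.Agent.Y961.JR.LinearFix

set_option autoImplicit false

/-! # Digital functions in coprime bases and record prime gaps around several linear functions -/

namespace Pool.Agent.Run7.h984.DG

open Finset Filter
open Pool.Agent.H469R2.NK (e norm_e e_add conj_e e_zero)
open Pool.Agent.W147.PS (ff ff_compare ev_pow)
open Pool.Agent.TH915.PW (e_int class_le char_count GS GS_frequent dist_of_approx)
open Pool.Agent.Y961.JR (crit_scaled1J geom_bound ev_lower)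

/-- exponential sums over a residue class -/
lemma class_exp {κ : Type} (s : Finset κ) (u : κ → ℤ) (φ : κ → ℝ) (q : ℕ) (hq : 1 ≤ q) (E : ℝ)
    (hE : ∀ a : ℕ, a < q → ‖∑ i ∈ s, e ((a : ℝ) / q * u i + φ i)‖ ≤ E) (r : ℤ) :
    ‖∑ i ∈ s.filter (fun i => (q : ℤ) ∣ u i - r), e (φ i)‖ ≤ E := by
  classical
  have hq0 : 0 < q := hq
  have hq' : (0 : ℝ) < q := by exact_mod_cast hq0
  have h2 : ∑ a ∈ range q, e (-(r : ℝ) * ((a : ℝ) / q)) *
      ∑ i ∈ s, e ((a : ℝ) / q * u i + φ i) =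
      (q : ℂ) * ∑ i ∈ s.filter (fun i => (q : ℤ) ∣ u i - r), e (φ i) := by
    have h3 : ∀ a ∈ range q, e (-(r : ℝ) * ((a : ℝ) / q)) *
        ∑ i ∈ s, e ((a : ℝ) / q * u i + φ i) =
        ∑ i ∈ s, e (((u i - r : ℤ) : ℝ) * ((a : ℝ) / q)) * e (φ i) := by
      intro a _
      rw [mul_sum]
      refine sum_congr rfl fun i _ => ?_
      rw [← e_add, ← e_add]
      congr 1
      push_cast
      ring
    rw [sum_congr rfl h3, sum_comm, mul_sum, sum_filter]
    refine sum_congr rfl fun i _ => ?_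
    rw [← sum_mul, char_sum q hq0]
    split_ifs <;> simp
  have h4 : ‖∑ a ∈ range q, e (-(r : ℝ) * ((a : ℝ) / q)) *
      ∑ i ∈ s, e ((a : ℝ) / q * u i + φ i)‖ ≤ q * E := by
    refine (norm_sum_le _ _).trans ?_
    have h5 : ∀ a ∈ range q, ‖e (-(r : ℝ) * ((a : ℝ) / q)) *
        ∑ i ∈ s, e ((a : ℝ) / q * u i + φ i)‖ ≤ E := by
      intro a ha
      rw [norm_mul, norm_e, one_mul]
      exact hE a (mem_range.1 ha)
    refine (sum_le_sum h5).trans ?_
    simp
  rw [h2, norm_mul, Complex.norm_natCast] at h4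
  exact le_of_mul_le_mul_left h4 hq'

/-- the members of a class: exponential sums -/
lemma family_bound {Γ : Type} [AddCommGroup Γ] [Fintype Γ] [DecidableEq Γ] (T : ℕ → Γ) (Q : ℕ)
    (E : ℝ) (hE : 0 ≤ E)
    (h : ∀ ψ : AddChar Γ ℂ, ψ ≠ 0 → ∀ θ : ℝ, ‖∑ t ∈ range Q, ψ (T t) * e (t * θ)‖ ≤ E)
    (g : Γ) (x : ℝ) :
    ‖(Fintype.card Γ : ℂ) * (∑ t ∈ (range Q).filter (fun t => T t = g), e (x * t)) -
      ∑ t ∈ range Q, e (t * x)‖ ≤ Fintype.card Γ * E := by
  have h0 : (0 : AddChar Γ ℂ) ∈ (univ : Finset (AddChar Γ ℂ)) := mem_univ _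
  rw [char_count, ← add_sum_erase _ _ h0]
  have h1 : ((0 : AddChar Γ ℂ) (-g) * ∑ n ∈ range Q, (0 : AddChar Γ ℂ) (T n) * e (n * x)) =
      ∑ n ∈ range Q, e (n * x) := by
    simp
  rw [h1, add_sub_cancel_left]
  refine (norm_sum_le _ _).trans ?_
  have h2 : ∀ χ ∈ (univ : Finset (AddChar Γ ℂ)).erase 0,
      ‖χ (-g) * ∑ n ∈ range Q, χ (T n) * e (n * x)‖ ≤ E := by
    intro χ hχ
    rw [norm_mul, χ.norm_apply, one_mul]
    exact h χ (ne_of_mem_erase hχ) x
  refine (sum_le_card_nsmul _ _ _ h2).trans ?_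
  rw [nsmul_eq_mul]
  apply mul_le_mul_of_nonneg_right _ hE
  have h3 : ((univ : Finset (AddChar Γ ℂ)).erase 0).card ≤ Fintype.card (AddChar Γ ℂ) :=
    (card_le_card (erase_subset _ _)).trans (by rw [card_univ])
  rw [AddChar.card_eq] at h3
  exact_mod_cast h3

variable {ι : Type} [Fintype ι] [DecidableEq ι] [Nonempty ι]

set_option maxHeartbeats 4000000 in
/-- the uniform theorem -/
theorem uniform (b : ι → ℕ) (hb : ∀ i, 2 ≤ b i) (hcop : ∀ i j, i ≠ j → Nat.Coprime (b i) (b j))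
    (G : ι → Type) [∀ i, AddCommGroup (G i)] [∀ i, Fintype (G i)] (S : ∀ i, ℕ → G i)
    (hS : ∀ i n d, d < b i → S i (b i * n + d) = S i n + S i d)
    (hN : ∀ i, ∀ χ : AddChar (G i) ℂ, χ ≠ 0 →
      ¬ (χ (S i 1) ^ (b i - 1) = 1 ∧ ∀ d < b i, χ (S i d) = χ (S i 1) ^ d)) :
    ∃ σ : ℝ, 0 < σ ∧ σ ≤ 1 / 8 ∧ ∀ (r : ℕ), 1 ≤ r → ∀ η : ℝ, 0 < η → η ≤ σ / 2 →
    ∃ κ : ℝ, 0 < κ ∧ ∃ Z₀ : ℝ, ∀ Z : ℝ, Z₀ ≤ Z → ∀ α β : Fin r → ℝ,
    (∀ h : Fin r → ℤ, h ≠ 0 → (∀ j, |(h j : ℝ)| ≤ Z ^ η) → ∀ m : ℤ,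
      Z ^ (-σ) ≤ |∑ j, (h j : ℝ) * α j - m|) →
    ∀ M : ℝ, Z ≤ M → (∀ n : ℕ, M < n → ∀ j, Z ^ η ≤ α j * n + β j) → ∀ g : ∀ i, G i,
    ∃ n : ℕ, M < n ∧ (n : ℝ) ≤ M + Z ∧ (∀ i, S i n = g i) ∧
      (∀ q : ℕ, q.Prime → κ * ff Z < |(q : ℝ) - n|) ∧
      ∀ j, ∀ q : ℕ, q.Prime → κ * ff Z < |(q : ℝ) - (α j * n + β j)| := by
  classical
  obtain ⟨δ, hδ0, hδ4, C, hC1, D, hD1, hsav⟩ := saving b hb hcop G S hS hN
  set k : ℕ := Fintype.card ι with hk
  have hk1 : 1 ≤ k := Fintype.card_pos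
  have hk1' : (1 : ℝ) ≤ k := by exact_mod_cast hk1
  set σ : ℝ := δ / (2 * k) with hσ
  have hσ0 : 0 < σ := by positivity
  have hσk : σ * (2 * k) = δ := by rw [hσ]; field_simp
  have hσ8 : 8 * σ * k ≤ 1 := by nlinarith
  have hσ1 : σ ≤ 1 / 8 := by nlinarith
  refine ⟨σ, hσ0, hσ1, ?_⟩
  intro r hr η hη0 hησ
  have hη1 : η ≤ 1 := by linarith
  obtain ⟨κ, hκ, hcrit⟩ := crit_scaled1J r hr η hη0 hη1
  refine ⟨κ, hκ, ?_⟩
  set c : ℝ := (Fintype.card (∀ i, G i) : ℝ) with hc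
  have hc1 : 1 ≤ c := by
    rw [hc]
    exact_mod_cast Fintype.card_pos
  obtain ⟨Z₀, hZ₀⟩ := eventually_atTop.1 (hcrit.and ((eventually_ge_atTop (2 * D : ℝ)).and
    ((ev_pow (1 / 2) 1 (2 * D) (by norm_num)).and
    ((ev_pow 0 (σ - η) (8 * c * C) (by linarith)).and
    ((ev_pow 0 (2 * σ) (8 * c) (by linarith)).and (eventually_ge_atTop (1 : ℝ)))))))
  refine ⟨Z₀, ?_⟩
  intro Z hZ α β hα M hM hpos g
  obtain ⟨hcr, hZD, hZh, hZC, hZc, hZ1⟩ := hZ₀ Z hZ
  rw [Real.rpow_zero, mul_one] at hZC hZc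
  rw [Real.rpow_one] at hZh
  have hZ0 : 0 < Z := by linarith
  have hM0 : 0 ≤ M := by linarith
  have hmono : ∀ x y : ℝ, x ≤ y → Z ^ x ≤ Z ^ y := fun x y h =>
    Real.rpow_le_rpow_of_exponent_le hZ1 h
  -- the scale
  have hk0 : (k : ℝ) ≠ 0 := by positivity
  set X : ℝ := (Z / (2 * D)) ^ (1 / (k : ℝ)) with hX
  have hbase1 : 1 ≤ Z / (2 * D) := by
    rw [le_div_iff₀ (by linarith)]
    linarith
  have hX1 : 1 ≤ X := Real.one_le_rpow hbase1 (by positivity)
  have hXk : X ^ k = Z / (2 * D) := by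
    rw [hX, ← Real.rpow_natCast, ← Real.rpow_mul (by linarith), one_div, inv_mul_cancel₀ hk0,
      Real.rpow_one]
  have hXlow : Z ^ (1 / (2 * (k : ℝ))) ≤ X := by
    have h1 : Z ^ (1 / 2 : ℝ) ≤ Z / (2 * D) := by
      rw [le_div_iff₀ (by linarith)]
      linarith
    calc Z ^ (1 / (2 * (k : ℝ))) = (Z ^ (1 / 2 : ℝ)) ^ (1 / (k : ℝ)) := by
          rw [← Real.rpow_mul hZ0.le]
          congr 1
          field_simp
      _ ≤ (Z / (2 * D)) ^ (1 / (k : ℝ)) :=
          Real.rpow_le_rpow (by positivity) h1 (by positivity)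
  obtain ⟨Q, hXQ, hQX, hsum⟩ := hsav X hX1
  have hQZ : 2 * (Q : ℝ) ≤ Z := by
    rw [hXk] at hQX
    have : D * (Z / (2 * D)) = Z / 2 := by
      field_simp
    linarith
  have hQ0' : (0 : ℝ) < Q := by linarith
  have hQ0 : 0 < Q := by exact_mod_cast hQ0'
  have hXσ : X ^ (-δ) ≤ Z ^ (-σ) := by
    have h1 : (Z ^ (1 / (2 * (k : ℝ)))) ^ (-δ) = Z ^ (-σ) := by
      rw [← Real.rpow_mul hZ0.le]
      congr 1
      rw [hσ]
      ring
    rw [← h1]
    exact Real.rpow_le_rpow_of_nonpos (by positivity) hXlow (by linarith)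
  have hQσ : Z ^ (4 * σ) ≤ Q := by
    refine le_trans ?_ (hXlow.trans hXQ)
    apply hmono
    rw [le_div_iff₀ (by positivity)]
    linarith
  -- the block
  set m₀ : ℕ := ⌊M / Q⌋₊ + 1 with hm₀
  have hN1 : M < (Q : ℝ) * m₀ := by
    have := Nat.lt_floor_add_one (M / Q)
    rw [div_lt_iff₀ hQ0'] at this
    rw [hm₀]
    push_cast
    linarith
  have hN2 : (Q : ℝ) * m₀ ≤ M + Q := by
    have := Nat.floor_le (show 0 ≤ M / Q by positivity)
    rw [le_div_iff₀ hQ0'] at this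
    rw [hm₀]
    push_cast
    linarith
  set T : ℕ → (∀ i, G i) := fun t i => S i (Q * m₀ + t) with hT
  set s : Finset ℕ := (range Q).filter (fun t => T t = g) with hs
  set E : ℝ := C * Q * X ^ (-δ) with hE
  have hE0 : 0 ≤ E := by
    rw [hE]
    have : 0 ≤ X ^ (-δ) := by positivity
    positivity
  have hfb : ∀ x : ℝ, ‖((Fintype.card (∀ i, G i) : ℕ) : ℂ) * (∑ t ∈ s, e (x * t)) -
      ∑ t ∈ range Q, e (t * x)‖ ≤ c * E := fun x =>
    family_bound T Q E hE0 (fun ψ hψ θ => hsum m₀ ψ hψ θ) g x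
  have hEs : 8 * c * E ≤ Q * Z ^ (-η) := by
    calc 8 * c * E = (8 * c * C) * Q * X ^ (-δ) := by rw [hE]; ring
      _ ≤ Z ^ (σ - η) * Q * Z ^ (-σ) := by gcongr
      _ = Q * (Z ^ (σ - η) * Z ^ (-σ)) := by ring
      _ = Q * Z ^ (-η) := by
          rw [← Real.rpow_add hZ0]
          congr 2
          ring
  have hZη : Z ^ (-η) ≤ 1 := by
    calc Z ^ (-η) ≤ Z ^ (0 : ℝ) := hmono _ _ (by linarith)
      _ = 1 := Real.rpow_zero Z
  have hZη0 : 0 < Z ^ (-η) := Real.rpow_pos_of_pos hZ0 _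
  -- the number of elements
  have hcard : (Q : ℝ) ≤ c * s.card + c * E := by
    have h1 := hfb 0
    simp only [zero_mul, mul_zero, e_zero, sum_const, nsmul_eq_mul, mul_one, card_range] at h1
    have h2 : (((Fintype.card (∀ i, G i) : ℕ) : ℂ) * (s.card : ℂ) - (Q : ℂ)) =
        ((c * s.card - Q : ℝ) : ℂ) := by
      rw [hc]; push_cast; ring
    rw [h2, Complex.norm_real, Real.norm_eq_abs] at h1
    have := (abs_le.mp h1).1
    linarith
  have hcard2 : (Q : ℝ) ≤ 2 * c * s.card := by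
    have h1 : 8 * c * E ≤ Q := hEs.trans (mul_le_of_le_one_right hQ0'.le hZη)
    nlinarith
  have hspos : (0 : ℝ) < s.card := by
    by_contra hcon
    push Not at hcon
    have : 2 * c * (s.card : ℝ) ≤ 0 := mul_nonpos_of_nonneg_of_nonpos (by linarith) hcon
    linarith
  have hsne : s.Nonempty := by
    rw [← card_pos]
    exact_mod_cast hspos
  -- exponential sums over `s`
  have hexp : ∀ x δ' : ℝ, 0 < δ' → (∀ m : ℤ, δ' ≤ |x - m|) → 8 / δ' ≤ Q * Z ^ (-η) →
      ‖∑ t ∈ s, e (x * t)‖ ≤ s.card * Z ^ (-η) := by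
    intro x δ' hδ' hx hQδ
    have h1 := hfb x
    have h2 : ‖∑ t ∈ range Q, e (t * x)‖ ≤ 2 / δ' := by
      have := geom_bound x 0 δ' hδ' hx Q
      simpa using this
    have h3 : c * ‖∑ t ∈ s, e (x * t)‖ ≤ c * E + 2 / δ' := by
      have h4 := norm_add_le (((Fintype.card (∀ i, G i) : ℕ) : ℂ) * (∑ t ∈ s, e (x * t)) -
        ∑ t ∈ range Q, e (t * x)) (∑ t ∈ range Q, e (t * x))
      rw [sub_add_cancel, norm_mul, Complex.norm_natCast] at h4
      linarith
    have h5 : c * ‖∑ t ∈ s, e (x * t)‖ ≤ c * (s.card * Z ^ (-η)) := by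
      have h6 : 8 / δ' = 4 * (2 / δ') := by ring
      have h7 : Q * Z ^ (-η) ≤ 2 * c * s.card * Z ^ (-η) :=
        mul_le_mul_of_nonneg_right hcard2 hZη0.le
      nlinarith
    exact le_of_mul_le_mul_left h5 (by linarith)
  -- two lower bounds for the distance
  have hsmall : ∀ y : ℝ, y + η ≤ 2 * σ → 8 * Z ^ y ≤ Q * Z ^ (-η) := by
    intro y hy
    have hZc' : 8 ≤ Z ^ (2 * σ) := by nlinarith
    calc 8 * Z ^ y ≤ Z ^ (2 * σ) * Z ^ y := mul_le_mul_of_nonneg_right hZc' (by positivity)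
      _ = Z ^ (2 * σ + y) := (Real.rpow_add hZ0 _ _).symm
      _ ≤ Z ^ (4 * σ + -η) := hmono _ _ (by linarith)
      _ = Z ^ (4 * σ) * Z ^ (-η) := Real.rpow_add hZ0 _ _
      _ ≤ _ := mul_le_mul_of_nonneg_right hQσ hZη0.le
  obtain ⟨t, ht, ht1, ht2⟩ := hcr ℕ s (fun t => ((Q * m₀ + t : ℕ) : ℤ))
    (fun t j => α j * ((Q * m₀ + t : ℕ) : ℝ) + β j) hsne (by
      intro t _
      have h1 : Z ^ η ≤ Z := by
        calc Z ^ η ≤ Z ^ (1 : ℝ) := hmono _ _ hη1
          _ = Z := Real.rpow_one Z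
      push_cast
      have : (0 : ℝ) ≤ t := Nat.cast_nonneg t
      linarith) (by
      intro t _ j
      apply hpos
      push_cast
      have : (0 : ℝ) ≤ t := Nat.cast_nonneg t
      linarith) (by
      intro q hq hqZ b'
      have hq0 : (0 : ℝ) < q := by exact_mod_cast hq
      constructor
      · apply class_le s _ q hq _ (by positivity)
        intro h hh1 hh2
        have e1 : ‖∑ t ∈ s, e ((h : ℝ) / q * (((Q * m₀ + t : ℕ) : ℤ) : ℝ))‖ =
            ‖∑ t ∈ s, e ((h : ℝ) / q * t)‖ := by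
          have e2 : ∀ t ∈ s, e ((h : ℝ) / q * (((Q * m₀ + t : ℕ) : ℤ) : ℝ)) =
              e ((h : ℝ) / q * (Q * m₀)) * e ((h : ℝ) / q * t) := by
            intro t _
            rw [← e_add]
            congr 1
            push_cast
            ring
          rw [sum_congr rfl e2, ← mul_sum, norm_mul, norm_e, one_mul]
        rw [e1]
        apply hexp _ (1 / q) (by positivity)
        · intro m
          have h3 : (h : ℝ) / q - m = ((h - q * m : ℤ) : ℝ) / q := by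
            push_cast
            field_simp
          rw [h3, abs_div, abs_of_pos hq0]
          apply div_le_div_of_nonneg_right _ hq0.le
          have h4 : (h : ℤ) - q * m ≠ 0 := by
            intro h5
            have h6 : (q : ℤ) ∣ h := ⟨m, by linarith⟩
            have h7 := Int.le_of_dvd (by omega) h6
            omega
          have h8 := Int.one_le_abs h4
          exact_mod_cast h8
        · have h3 : 8 / (1 / (q : ℝ)) = 8 * q := by field_simp
          rw [h3]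
          refine le_trans ?_ (hsmall η (by linarith))
          linarith
      · intro h hh hhZ
        apply class_exp s _ _ q hq
        intro a _
        set y : ℝ := ((a : ℝ) + ∑ j, (h j : ℝ) * α j) / q with hy
        have e1 : ∀ t ∈ s, e ((a : ℝ) / q * (((Q * m₀ + t : ℕ) : ℤ) : ℝ) +
            ∑ j, (h j : ℝ) * ((α j * ((Q * m₀ + t : ℕ) : ℝ) + β j) / q)) =
            e (y * (Q * m₀) + ∑ j, (h j : ℝ) * β j / q) * e (y * t) := by
          intro t _
          rw [← e_add]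
          congr 1
          have e2 : ∑ j, (h j : ℝ) * ((α j * ((Q * m₀ + t : ℕ) : ℝ) + β j) / q) =
              (∑ j, (h j : ℝ) * α j) * ((Q * m₀ + t : ℕ) : ℝ) / q + ∑ j, (h j : ℝ) * β j / q := by
            rw [sum_mul, sum_div, ← sum_add_distrib]
            refine sum_congr rfl fun j _ => ?_
            ring
          rw [e2, hy]
          push_cast
          field_simp
          ring
        rw [sum_congr rfl e1, ← mul_sum, norm_mul, norm_e, one_mul]
        apply hexp y (Z ^ (-σ) / q) (by positivity)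
        · intro m
          have h3 : y - m = (∑ j, (h j : ℝ) * α j - ((q * m - a : ℤ) : ℝ)) / q := by
            rw [hy]
            push_cast
            field_simp
            ring
          rw [h3, abs_div, abs_of_pos hq0]
          exact div_le_div_of_nonneg_right (hα h hh hhZ _) hq0.le
        · have h3 : 8 / (Z ^ (-σ) / q) = 8 * (q * Z ^ σ) := by
            rw [Real.rpow_neg hZ0.le]
            field_simp
          rw [h3]
          refine le_trans ?_ (hsmall (η + σ) (by linarith))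
          rw [Real.rpow_add hZ0]
          have := Real.rpow_pos_of_pos hZ0 σ
          gcongr)
  rw [hs, mem_filter, mem_range] at ht
  refine ⟨Q * m₀ + t, ?_, ?_, ?_, ?_, ?_⟩
  · push_cast
    have : (0 : ℝ) ≤ t := Nat.cast_nonneg t
    linarith
  · push_cast
    have : (t : ℝ) ≤ Q := by exact_mod_cast ht.1.le
    linarith
  · intro i
    exact congrFun ht.2 i
  · intro q hq
    have := ht1 q hq
    push_cast at this ⊢
    exact this
  · intro j q hq
    exact ht2 j q hq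

end Pool.Agent.Run7.h984.DG
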