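import Pool.Agent.Run7.h984.DG.Joint
import Pool.Agent.TH915.PW.DigitsMain

set_option autoImplicit false

/-! # Power saving for products of digital functions in coprime bases -/

namespace Pool.Agent.Run7.h984.DG

open Finset Filter Topology
open Pool.Agent.H469R2.NK (e norm_e e_add conj_e e_zero)
open Pool.Agent.TH915.PW (e_int sum_char sum_blocks S_split Fd T_bound uniform_rho)

/-- a common positive lower bound -/
lemma common_lower {ι : Type} [Fintype ι] (d : ι → ℝ) (hd : ∀ i, 0 < d i) :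
    ∃ δ : ℝ, 0 < δ ∧ δ ≤ 1 / 4 ∧ ∀ i, δ ≤ d i := by
  have h1 : ∀ᶠ δ in 𝓝[>] (0 : ℝ), ∀ i, δ ≤ d i := by
    rw [eventually_all]
    intro i
    filter_upwards [Ioc_mem_nhdsGT (hd i)] with δ hδ
    exact hδ.2
  have h2 : ∀ᶠ δ in 𝓝[>] (0 : ℝ), δ ∈ Set.Ioc (0 : ℝ) (1 / 4) :=
    Ioc_mem_nhdsGT (by norm_num)
  obtain ⟨δ, h3, h4⟩ := (h1.and h2).exists
  exact ⟨δ, h4.1, h4.2, h3⟩

lemma char_sum_prod {ι A : Type} [AddCommGroup A] (ψ : AddChar A ℂ) (s : Finset ι) (y : ι → A) :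
    ψ (∑ i ∈ s, y i) = ∏ i ∈ s, ψ (y i) := by
  classical
  induction s using Finset.induction_on with
  | empty => simp
  | insert i s hi ih => rw [sum_insert hi, prod_insert hi, AddChar.map_add_eq_mul, ih]

/-- the components of a character of a product -/
lemma char_pi {ι : Type} [Fintype ι] [DecidableEq ι] {G : ι → Type} [∀ i, AddCommGroup (G i)]
    (ψ : AddChar (∀ i, G i) ℂ) (x : ∀ i, G i) :
    ψ x = ∏ i, (ψ.compAddMonoidHom (AddMonoidHom.single G i)) (x i) := by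
  conv_lhs => rw [← univ_sum_single x]
  rw [char_sum_prod]
  rfl

lemma char_pi_ne {ι : Type} [Fintype ι] [DecidableEq ι] {G : ι → Type} [∀ i, AddCommGroup (G i)]
    (ψ : AddChar (∀ i, G i) ℂ) (hψ : ψ ≠ 0) :
    ∃ i, ψ.compAddMonoidHom (AddMonoidHom.single G i) ≠ 0 := by
  by_contra hcon
  push Not at hcon
  apply hψ
  ext x
  rw [char_pi ψ x]
  simp [hcon]

variable {ι : Type} [Fintype ι] [DecidableEq ι] [Nonempty ι]

/-- power saving in the joint sums, uniformly in the frequency -/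
theorem saving (b : ι → ℕ) (hb : ∀ i, 2 ≤ b i) (hcop : ∀ i j, i ≠ j → Nat.Coprime (b i) (b j))
    (G : ι → Type) [∀ i, AddCommGroup (G i)] [∀ i, Fintype (G i)] (S : ∀ i, ℕ → G i)
    (hS : ∀ i n d, d < b i → S i (b i * n + d) = S i n + S i d)
    (hN : ∀ i, ∀ χ : AddChar (G i) ℂ, χ ≠ 0 →
      ¬ (χ (S i 1) ^ (b i - 1) = 1 ∧ ∀ d < b i, χ (S i d) = χ (S i 1) ^ d)) :
    ∃ δ : ℝ, 0 < δ ∧ δ ≤ 1 / 4 ∧ ∃ C : ℝ, 1 ≤ C ∧ ∃ D : ℝ, 1 ≤ D ∧ ∀ X : ℝ, 1 ≤ X →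
      ∃ Q : ℕ, X ≤ Q ∧ (Q : ℝ) ≤ D * X ^ (Fintype.card ι) ∧ ∀ m₀ : ℕ,
      ∀ ψ : AddChar (∀ i, G i) ℂ, ψ ≠ 0 → ∀ θ : ℝ,
      ‖∑ t ∈ range Q, ψ (fun i => S i (Q * m₀ + t)) * e (t * θ)‖ ≤ C * Q * X ^ (-δ) := by
  classical
  have hS0 : ∀ i, S i 0 = 0 := by
    intro i
    have := hS i 0 0 (by have := hb i; omega)
    simpa using this
  have hbR : ∀ i, (2 : ℝ) ≤ b i := fun i => by exact_mod_cast hb i
  have huni := fun i => uniform_rho (b i) (hb i) (S i) (hS0 i) (hN i)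
  choose ρ hρ1 hρ2 hρ using huni
  have hb24 : ∀ i, (4 : ℝ) ≤ (b i : ℝ) ^ 2 := fun i => by nlinarith [hbR i]
  have hlb : ∀ i, 0 < Real.log ((b i : ℝ) ^ 2) := fun i => Real.log_pos (by linarith [hb24 i])
  set lam : ι → ℝ := fun i => Real.log (ρ i) / Real.log ((b i : ℝ) ^ 2) with hlam
  have hlam0 : ∀ i, 0 ≤ lam i := fun i => div_nonneg (Real.log_nonneg (hρ1 i)) (hlb i).le
  have hlam1 : ∀ i, lam i < 1 := by
    intro i
    rw [hlam]
    simp only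
    rw [div_lt_one (hlb i)]
    exact Real.log_lt_log (by linarith [hρ1 i]) (hρ2 i)
  have hρlam : ∀ i, ((b i : ℝ) ^ 2) ^ (lam i) = ρ i := by
    intro i
    rw [Real.rpow_def_of_pos (by linarith [hb24 i]), hlam]
    simp only
    rw [mul_div_cancel₀ _ (hlb i).ne', Real.exp_log (by linarith [hρ1 i])]
  obtain ⟨δ, hδ0, hδ4, hδ⟩ := common_lower (fun i => (1 - lam i) / 2)
    (fun i => by have := hlam1 i; linarith)
  set D : ℝ := ∏ i, (b i : ℝ) ^ 2 with hD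
  have hD1 : 1 ≤ D := by
    rw [hD]
    calc (1 : ℝ) = ∏ i : ι, (1 : ℝ) := by simp
      _ ≤ _ := prod_le_prod (fun _ _ => by norm_num) fun i _ => by linarith [hb24 i]
  have hbD : ∀ i, (b i : ℝ) ^ 2 ≤ D := by
    intro i
    rw [hD, ← mul_prod_erase univ _ (mem_univ i)]
    apply le_mul_of_one_le_right (by positivity)
    calc (1 : ℝ) = ∏ j ∈ univ.erase i, (1 : ℝ) := by simp
      _ ≤ _ := prod_le_prod (fun _ _ => by norm_num) fun j _ => by linarith [hb24 j]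
  refine ⟨δ, hδ0, hδ4, 4 + 2 * (Fintype.card ι : ℝ) + D, by
    have : (0 : ℝ) ≤ Fintype.card ι := Nat.cast_nonneg _
    linarith, D, hD1, ?_⟩
  intro X hX
  have hX0 : 0 < X := by linarith
  have hL := fun i => exists_nat_pow_near hX (show (1 : ℝ) < (b i : ℝ) ^ 2 by linarith [hb24 i])
  choose L hL1 hL2 using hL
  set B : ι → ℕ := fun i => ((b i) ^ 2) ^ (L i + 1) with hB
  have hBR : ∀ i, (B i : ℝ) = ((b i : ℝ) ^ 2) ^ (L i + 1) := fun i => by rw [hB]; push_cast; rfl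
  have hBX : ∀ i, X ≤ B i := fun i => by rw [hBR i]; exact (hL2 i).le
  have hBX2 : ∀ i, (B i : ℝ) ≤ (b i : ℝ) ^ 2 * X := by
    intro i
    rw [hBR i, pow_succ, mul_comm]
    exact mul_le_mul_of_nonneg_left (hL1 i) (by positivity)
  have hB0 : ∀ i, 0 < B i := fun i => by
    have := hb i
    rw [hB]
    positivity
  have hB0' : ∀ i, (0 : ℝ) < B i := fun i => by exact_mod_cast hB0 i
  have hB1' : ∀ i, (1 : ℝ) ≤ B i := fun i => by exact_mod_cast hB0 i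
  have hBcop : ∀ i j, i ≠ j → Nat.Coprime (B i) (B j) := by
    intro i j hij
    rw [hB]
    exact Nat.Coprime.pow _ _ (Nat.Coprime.pow _ _ (hcop i j hij))
  set Q : ℕ := ∏ i, B i with hQ
  have hQR : (Q : ℝ) = ∏ i, (B i : ℝ) := by rw [hQ]; push_cast; rfl
  have hQX : X ≤ Q := by
    obtain ⟨i⟩ := ‹Nonempty ι›
    have h1 : B i ≤ Q := by
      rw [hQ]
      exact Nat.le_of_dvd (prod_pos fun j _ => hB0 j) (dvd_prod_of_mem B (mem_univ i))
    exact (hBX i).trans (by exact_mod_cast h1)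
  refine ⟨Q, hQX, ?_, ?_⟩
  · rw [hQR, hD, ← Finset.card_univ, ← prod_const, ← prod_mul_distrib]
    exact prod_le_prod (fun i _ => (hB0' i).le) fun i _ => hBX2 i
  intro m₀ ψ hψ θ
  obtain ⟨i₀, hi₀⟩ := char_pi_ne ψ hψ
  set ψc : ∀ i, AddChar (G i) ℂ := fun i => ψ.compAddMonoidHom (AddMonoidHom.single G i) with hψc
  set f : ι → ℕ → ℂ := fun i n => ψc i (S i n) with hf
  have hf1 : ∀ i n, ‖f i n‖ = 1 := fun i n => (ψc i).norm_apply _
  have hfs : ∀ i m n, n < B i → f i (B i * m + n) = f i m * f i n := by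
    intro i m n hn
    have h1 : B i = b i ^ (2 * (L i + 1)) := by rw [hB]; exact (pow_mul _ _ _).symm
    rw [h1] at hn ⊢
    rw [hf]
    simp only
    rw [S_split (b i) (hb i) (S i) (hS i) _ m n hn, AddChar.map_add_eq_mul]
  -- the Fourier bound
  set τ : ℝ := ρ i₀ ^ (L i₀ + 1) with hτ
  have hρ0 : 0 ≤ ρ i₀ := by linarith [hρ1 i₀]
  have hτ0 : 0 ≤ τ := by rw [hτ]; positivity
  have hτB : τ = (B i₀ : ℝ) ^ (lam i₀) := by
    have hx0 : (0 : ℝ) ≤ (b i₀ : ℝ) ^ 2 := by positivity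
    rw [hτ, hBR, ← hρlam i₀]
    generalize (b i₀ : ℝ) ^ 2 = x at hx0 ⊢
    rw [← Real.rpow_natCast, ← Real.rpow_natCast, ← Real.rpow_mul hx0, ← Real.rpow_mul hx0,
      mul_comm]
  have hF : ∀ x : ℝ, ‖∑ n ∈ range (B i₀), f i₀ n * e (n * x)‖ ≤ τ := by
    intro x
    refine T_bound (b i₀) (f i₀) ?_ ?_ (ρ i₀) hρ0 ?_ (L i₀ + 1) x
    · intro n d hd
      rw [hf]
      simp only
      rw [hS i₀ n d hd, AddChar.map_add_eq_mul]
    · rw [hf1]
    · exact hρ i₀ (ψc i₀) hi₀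
  -- the parameter `R`
  have hpw : 1 ≤ X ^ (1 - 2 * δ) := Real.one_le_rpow hX (by linarith)
  set R : ℕ := ⌈X ^ (1 - 2 * δ)⌉₊ with hR
  have hR1 : 1 ≤ R := by
    rw [hR]
    exact Nat.one_le_ceil_iff.2 (by linarith)
  have hRl : X ^ (1 - 2 * δ) ≤ R := Nat.le_ceil _
  have hRu : (R : ℝ) ≤ 2 * X ^ (1 - 2 * δ) := by
    have := (Nat.ceil_lt_add_one (show 0 ≤ X ^ (1 - 2 * δ) by positivity)).le
    rw [← hR] at this
    linarith
  have hRB : R ≤ B i₀ := by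
    rw [hR, Nat.ceil_le]
    refine le_trans ?_ (hBX i₀)
    calc X ^ (1 - 2 * δ) ≤ X ^ (1 : ℝ) := Real.rpow_le_rpow_of_exponent_le hX (by linarith)
      _ = X := Real.rpow_one X
  have key := joint_bound B hB0 hBcop f hf1 hfs i₀ τ hτ0 hF R hR1 hRB θ m₀
  rw [← hQ] at key
  -- the left side
  have e1 : ‖∑ t ∈ range Q, (∏ i, f i (Q * m₀ + t)) * e ((Q * m₀ + t : ℕ) * θ)‖ =
      ‖∑ t ∈ range Q, ψ (fun i => S i (Q * m₀ + t)) * e (t * θ)‖ := by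
    have h1 : ∀ t ∈ range Q, (∏ i, f i (Q * m₀ + t)) * e ((Q * m₀ + t : ℕ) * θ) =
        e ((Q * m₀ : ℕ) * θ) * (ψ (fun i => S i (Q * m₀ + t)) * e (t * θ)) := by
      intro t _
      rw [char_pi ψ, hf]
      have h2 : ((Q * m₀ + t : ℕ) : ℝ) * θ = (Q * m₀ : ℕ) * θ + t * θ := by push_cast; ring
      rw [h2, e_add]
      ring
    rw [sum_congr rfl h1, ← mul_sum, norm_mul, norm_e, one_mul]
  rw [e1] at key
  refine key.trans ?_
  have hQ0 : (0 : ℝ) < Q := by linarith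
  have hR0 : (0 : ℝ) < R := by exact_mod_cast hR1
  have hXδ : X ^ (-(2 * δ)) ≤ X ^ (-δ) := Real.rpow_le_rpow_of_exponent_le hX (by linarith)
  have hsplit : X ^ (1 - 2 * δ) = X * X ^ (-(2 * δ)) := by
    rw [sub_eq_add_neg, Real.rpow_add hX0, Real.rpow_one]
  have hXn : 0 < X ^ (-δ) := Real.rpow_pos_of_pos hX0 _
  have hXn2 : 0 < X ^ (-(2 * δ)) := Real.rpow_pos_of_pos hX0 _
  have t1 : 2 * (R : ℝ) ≤ 4 * Q * X ^ (-δ) := by
    calc 2 * (R : ℝ) ≤ 4 * (X * X ^ (-(2 * δ))) := by rw [← hsplit]; linarith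
      _ ≤ 4 * (Q * X ^ (-δ)) := by gcongr
      _ = _ := by ring
  have t2 : (∑ i, (R : ℝ) / B i) * Q ≤ 2 * (Fintype.card ι : ℝ) * Q * X ^ (-δ) := by
    have h1 : ∑ i, (R : ℝ) / B i ≤ ∑ i : ι, 2 * X ^ (-δ) := by
      refine sum_le_sum fun i _ => ?_
      rw [div_le_iff₀ (hB0' i)]
      calc (R : ℝ) ≤ 2 * (X * X ^ (-(2 * δ))) := by rw [← hsplit]; exact hRu
        _ ≤ 2 * (B i * X ^ (-δ)) := by
            have := hBX i
            gcongr
        _ = _ := by ring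
    rw [sum_const, Finset.card_univ, nsmul_eq_mul] at h1
    calc (∑ i, (R : ℝ) / B i) * Q ≤ ((Fintype.card ι : ℝ) * (2 * X ^ (-δ))) * Q :=
          mul_le_mul_of_nonneg_right h1 hQ0.le
      _ = _ := by ring
  have t3 : τ / Real.sqrt (B i₀ * R) ≤ D * X ^ (-δ) := by
    have hBR0 : 0 < (B i₀ : ℝ) * R := mul_pos (hB0' i₀) hR0
    apply le_of_sq_le_sq _ (by positivity)
    rw [div_pow, Real.sq_sqrt hBR0.le, div_le_iff₀ hBR0]
    have hlamδ : lam i₀ ≤ 1 - 2 * δ := by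
      have := hδ i₀
      linarith
    have hτ2 : τ ^ 2 ≤ (B i₀ : ℝ) * (B i₀ : ℝ) ^ (1 - 4 * δ) := by
      have h1 : τ ≤ (B i₀ : ℝ) ^ (1 - 2 * δ) := by
        rw [hτB]
        exact Real.rpow_le_rpow_of_exponent_le (hB1' i₀) hlamδ
      calc τ ^ 2 ≤ ((B i₀ : ℝ) ^ (1 - 2 * δ)) ^ 2 := pow_le_pow_left₀ hτ0 h1 2
        _ = (B i₀ : ℝ) * (B i₀ : ℝ) ^ (1 - 4 * δ) := by
            rw [← Real.rpow_natCast, ← Real.rpow_mul (hB0' i₀).le]
            conv_rhs => rw [← Real.rpow_one (B i₀ : ℝ), ← Real.rpow_mul (hB0' i₀).le,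
              ← Real.rpow_add (hB0' i₀)]
            congr 1
            push_cast
            ring
    have hB4 : (B i₀ : ℝ) ^ (1 - 4 * δ) ≤ D * X ^ (1 - 4 * δ) := by
      have h1 : (B i₀ : ℝ) ≤ D * X := (hBX2 i₀).trans (mul_le_mul_of_nonneg_right (hbD i₀) hX0.le)
      calc (B i₀ : ℝ) ^ (1 - 4 * δ) ≤ (D * X) ^ (1 - 4 * δ) :=
            Real.rpow_le_rpow (hB0' i₀).le h1 (by linarith)
        _ = D ^ (1 - 4 * δ) * X ^ (1 - 4 * δ) := Real.mul_rpow (by linarith) hX0.le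
        _ ≤ D * X ^ (1 - 4 * δ) := by
            apply mul_le_mul_of_nonneg_right _ (by positivity)
            calc D ^ (1 - 4 * δ) ≤ D ^ (1 : ℝ) :=
                  Real.rpow_le_rpow_of_exponent_le hD1 (by linarith)
              _ = D := Real.rpow_one D
    have hX4 : X ^ (1 - 4 * δ) = (X ^ (-δ)) ^ 2 * X ^ (1 - 2 * δ) := by
      rw [← Real.rpow_natCast, ← Real.rpow_mul hX0.le, ← Real.rpow_add hX0]
      congr 1
      push_cast
      ring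
    calc τ ^ 2 ≤ (B i₀ : ℝ) * (D * X ^ (1 - 4 * δ)) :=
          hτ2.trans (mul_le_mul_of_nonneg_left hB4 (hB0' i₀).le)
      _ = D * (X ^ (-δ)) ^ 2 * (B i₀ * X ^ (1 - 2 * δ)) := by rw [hX4]; ring
      _ ≤ (D * D) * (X ^ (-δ)) ^ 2 * (B i₀ * R) := by
          have hB0i := (hB0' i₀).le
          gcongr
          exact le_mul_of_one_le_left (by linarith) hD1
      _ = (D * X ^ (-δ)) ^ 2 * (B i₀ * R) := by ring
  have t4 : (Q : ℝ) * (τ / Real.sqrt (B i₀ * R)) ≤ Q * (D * X ^ (-δ)) :=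
    mul_le_mul_of_nonneg_left t3 hQ0.le
  calc 2 * (R : ℝ) + (∑ i, (R : ℝ) / B i) * Q + Q * (τ / Real.sqrt (B i₀ * R))
      ≤ 4 * Q * X ^ (-δ) + 2 * (Fintype.card ι : ℝ) * Q * X ^ (-δ) + Q * (D * X ^ (-δ)) := by
        linarith
    _ = _ := by ring

end Pool.Agent.Run7.h984.DG
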